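import Pool.Agent.Helper24.AEC.HWEval
import Pool.Agent.Helper4.AEC.ClosedFormula

namespace Pool.Agent.Helper24.AEC

open Polynomial Finset

theorem root_ne_zero (k : ℕ) : root k ≠ 0 := neg_ne_zero.2 (Complex.exp_ne_zero _)

theorem root_sq_add (k : ℕ) : -root k ^ 2 - (root k)⁻¹ ^ 2 =
    -((2 * Real.cos (Real.pi / (k + 2)) : ℝ) : ℂ) := by
  have h1 : root k ^ 2 = Complex.exp (((Real.pi / (k + 2) : ℝ) : ℂ) * Complex.I) := by
    unfold root
    rw [neg_sq, ← Complex.exp_nat_mul]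
    congr 1
    have : (k : ℂ) + 2 ≠ 0 := by exact_mod_cast (by omega : k + 2 ≠ 0)
    push_cast
    field_simp
  have h2 : (root k)⁻¹ ^ 2 = Complex.exp (-((Real.pi / (k + 2) : ℝ) : ℂ) * Complex.I) := by
    rw [inv_pow, h1, ← Complex.exp_neg]
    congr 1
    ring
  rw [h1, h2]
  have := Complex.two_cos ((Real.pi / (k + 2) : ℝ) : ℂ)
  rw [Complex.ofReal_mul, Complex.ofReal_cos, Complex.ofReal_ofNat, this]
  ring

theorem del_root_ne_zero (k : ℕ) : ∀ n ≤ k, del (-root k ^ 2 - (root k)⁻¹ ^ 2) n ≠ 0 := by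
  intro n hn
  have hpos : ∀ x : ℕ, 1 ≤ x → x < k + 2 → 0 < Real.sin (Real.pi * x / (k + 2)) := by
    intro x hx hxk
    have := Helper4.AEC.sin_pos' hx hxk
    push_cast at this
    exact this
  have h1 : Real.sin (Real.pi / (k + 2)) ≠ 0 := by
    have := (hpos 1 le_rfl (by omega)).ne'
    simpa using this
  unfold del
  rw [root_sq_add, Helper4.AEC.S_eval n _ h1]
  have h2 : Real.sin (((n : ℝ) + 1) * (Real.pi / (k + 2))) ≠ 0 := by
    have := (hpos (n + 1) (by omega) (by omega)).ne'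
    have e : ((n : ℝ) + 1) * (Real.pi / (k + 2)) = Real.pi * ((n + 1 : ℕ) : ℝ) / (k + 2) := by
      push_cast; ring
    rw [e]; exact this
  exact Complex.ofReal_ne_zero.2 (div_ne_zero (mul_ne_zero (pow_ne_zero _ (by norm_num)) h2) h1)

theorem tw_inv (A : ℂ) (n : ℕ) : TLRep.tw A⁻¹ n = (TLRep.tw A n)⁻¹ := by
  unfold TLRep.tw
  rw [mul_inv, inv_pow, ← inv_pow]
  congr 1
  rw [← inv_pow]
  norm_num

/-- the value of the invariant of the Hantzsche–Wendt manifold -/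
noncomputable def hwValue (k : ℕ) : ℝ :=
  (-1) ^ k * Real.sqrt (2 / (k + 2)) * ∑ m ∈ (range (k + 2)).filter Odd,
        Real.cos (Real.pi * m / (2 * (k + 2))) / Real.sin (Real.pi * m / (2 * (k + 2)))

theorem Z_hw (t : ℤ) (k : ℕ) : Z hwDiagram t k =
    Complex.exp (2 * Real.pi * Complex.I * centralCharge k / 24 * t) * (hwValue k : ℂ) := by
  have hcf := Helper4.AEC.closed_formula k
  simp only at hcf
  unfold hwValue
  rw [← hcf]
  clear hcf
  unfold Z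
  rw [mul_assoc]
  congr 1
  have h1 : ∀ col : Fin 6 → Fin (k + 1), (∏ c, mu k * (Polynomial.Chebyshev.S ℂ ((col c : ℕ) : ℤ)).eval
        (-root k ^ 2 - (root k)⁻¹ ^ 2)) * colouredBracket (root k) hwDiagram k col =
      (mu k : ℂ) ^ 6 * ((del (-root k ^ 2 - (root k)⁻¹ ^ 2) (col 0) *
        del (-root k ^ 2 - (root k)⁻¹ ^ 2) (col 1) * del (-root k ^ 2 - (root k)⁻¹ ^ 2) (col 2) *
        del (-root k ^ 2 - (root k)⁻¹ ^ 2) (col 3) * del (-root k ^ 2 - (root k)⁻¹ ^ 2) (col 4) *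
        del (-root k ^ 2 - (root k)⁻¹ ^ 2) (col 5)) •
        (del (-root k ^ 2 - (root k)⁻¹ ^ 2) (col 0) *
          ((TLRep.Sp (col 3)).eval (TLRep.lam (root k) (col 0)) *
            (TLRep.tw (root k)⁻¹ (col 5) ^ 2 * (TLRep.Sp (col 5)).eval (TLRep.lam (root k) (col 3))) *
            (TLRep.tw (root k) (col 4) ^ 2 * (TLRep.Sp (col 4)).eval (TLRep.lam (root k) (col 3))) * 1) *
          (TLRep.tw (root k)⁻¹ (col 2) ^ 2 * (TLRep.Sp (col 2)).eval (TLRep.lam (root k) (col 0))) *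
          (TLRep.tw (root k) (col 1) ^ 2 * (TLRep.Sp (col 1)).eval (TLRep.lam (root k) (col 0))) * 1)) := by
    intro col
    rw [hw_colouredBracket (root_ne_zero k) (del_root_ne_zero k) col, Fin.prod_univ_six]
    simp only [smul_eq_mul, del]
    ring
  simp only [h1]
  rw [← Finset.mul_sum]
  have h2 := six_sum (R := ℂ) (ι := Fin (k + 1))
    (fun a => del (-root k ^ 2 - (root k)⁻¹ ^ 2) a) (fun a => del (-root k ^ 2 - (root k)⁻¹ ^ 2) a)
    (fun a => del (-root k ^ 2 - (root k)⁻¹ ^ 2) a) (fun a => del (-root k ^ 2 - (root k)⁻¹ ^ 2) a)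
    (fun a => del (-root k ^ 2 - (root k)⁻¹ ^ 2) a) (fun a => del (-root k ^ 2 - (root k)⁻¹ ^ 2) a)
    (fun a0 => del (-root k ^ 2 - (root k)⁻¹ ^ 2) a0) (fun _ => 1)
    (fun a0 a1 => TLRep.tw (root k) a1 ^ 2 * (TLRep.Sp a1).eval (TLRep.lam (root k) a0))
    (fun a0 a2 => TLRep.tw (root k)⁻¹ a2 ^ 2 * (TLRep.Sp a2).eval (TLRep.lam (root k) a0))
    (fun a0 a3 => (TLRep.Sp a3).eval (TLRep.lam (root k) a0)) (fun _ _ => 1)
    (fun _ a3 a4 => TLRep.tw (root k) a4 ^ 2 * (TLRep.Sp a4).eval (TLRep.lam (root k) a3))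
    (fun _ a3 a5 => TLRep.tw (root k)⁻¹ a5 ^ 2 * (TLRep.Sp a5).eval (TLRep.lam (root k) a3))
  have h3 := (sum_vec_six (fun col : Fin 6 → Fin (k + 1) =>
    ((del (-root k ^ 2 - (root k)⁻¹ ^ 2) (col 0) *
        del (-root k ^ 2 - (root k)⁻¹ ^ 2) (col 1) * del (-root k ^ 2 - (root k)⁻¹ ^ 2) (col 2) *
        del (-root k ^ 2 - (root k)⁻¹ ^ 2) (col 3) * del (-root k ^ 2 - (root k)⁻¹ ^ 2) (col 4) *
        del (-root k ^ 2 - (root k)⁻¹ ^ 2) (col 5)) •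
        (del (-root k ^ 2 - (root k)⁻¹ ^ 2) (col 0) *
          ((TLRep.Sp (col 3)).eval (TLRep.lam (root k) (col 0)) *
            (TLRep.tw (root k)⁻¹ (col 5) ^ 2 * (TLRep.Sp (col 5)).eval (TLRep.lam (root k) (col 3))) *
            (TLRep.tw (root k) (col 4) ^ 2 * (TLRep.Sp (col 4)).eval (TLRep.lam (root k) (col 3))) * 1) *
          (TLRep.tw (root k)⁻¹ (col 2) ^ 2 * (TLRep.Sp (col 2)).eval (TLRep.lam (root k) (col 0))) *
          (TLRep.tw (root k) (col 1) ^ 2 * (TLRep.Sp (col 1)).eval (TLRep.lam (root k) (col 0))) * 1)))).trans h2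
  rw [h3]
  have hmu : (((Real.sqrt (2 / (k + 2)) * Real.sin (Real.pi / (k + 2)) : ℝ) : ℂ)) = (mu k : ℂ) := rfl
  rw [hmu, show (mu k : ℂ) ^ 7 = mu k * (mu k : ℂ) ^ 6 by ring, mul_assoc]
  congr 2
  rw [Finset.sum_range]
  refine Finset.sum_congr rfl fun v _ => ?_
  rw [Finset.sum_range]
  have hroot : root k = -Complex.exp (Real.pi * Complex.I / (2 * (k + 2))) := rfl
  have hlam : ∀ n : ℕ, TLRep.lam (root k) n = -((root k) ^ (2 * n + 2) + (root k)⁻¹ ^ (2 * n + 2)) := by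
    intro n; unfold TLRep.lam; ring
  have hdel : ∀ n : ℕ, del (-root k ^ 2 - (root k)⁻¹ ^ 2) n =
      (Polynomial.Chebyshev.S ℂ (n : ℤ)).eval (-root k ^ 2 - ((root k)⁻¹) ^ 2) := fun _ => rfl
  have htw : ∀ n : ℕ, TLRep.tw (root k) n = (-1) ^ n * (root k) ^ (n ^ 2 + 2 * n) := fun _ => rfl
  simp only [← hroot, ← hlam, ← hdel, ← htw, tw_inv]
  obtain ⟨G, hG⟩ : ∃ G : ℕ → ℂ, ∀ v : ℕ,
      ∑ a : Fin (k + 1), del (-root k ^ 2 - (root k)⁻¹ ^ 2) a • (TLRep.tw (root k) a ^ 2 *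
        (TLRep.Sp a).eval (TLRep.lam (root k) v)) = G v := ⟨_, fun _ => rfl⟩
  obtain ⟨G', hG'⟩ : ∃ G' : ℕ → ℂ, ∀ v : ℕ,
      ∑ a : Fin (k + 1), del (-root k ^ 2 - (root k)⁻¹ ^ 2) a • ((TLRep.tw (root k) a)⁻¹ ^ 2 *
        (TLRep.Sp a).eval (TLRep.lam (root k) v)) = G' v := ⟨_, fun _ => rfl⟩
  have hF : ∀ v : ℕ, ∑ a ∈ range (k + 1), del (-root k ^ 2 - (root k)⁻¹ ^ 2) a *
      TLRep.tw (root k) a ^ 2 * (Polynomial.Chebyshev.S ℂ (a : ℤ)).eval (TLRep.lam (root k) v) =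
      G v := by
    intro v
    rw [← hG, Finset.sum_range]
    refine Finset.sum_congr rfl fun a _ => ?_
    rw [smul_eq_mul, mul_assoc]; rfl
  have hF' : ∀ v : ℕ, ∑ a ∈ range (k + 1), del (-root k ^ 2 - (root k)⁻¹ ^ 2) a *
      (TLRep.tw (root k) a)⁻¹ ^ 2 * (Polynomial.Chebyshev.S ℂ (a : ℤ)).eval (TLRep.lam (root k) v) =
      G' v := by
    intro v
    rw [← hG', Finset.sum_range]
    refine Finset.sum_congr rfl fun a _ => ?_
    rw [smul_eq_mul, mul_assoc]; rfl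
  simp only [hG, hG']
  simp only [hF, hF', smul_eq_mul, mul_one]
  rw [Finset.mul_sum, Finset.sum_mul, Finset.sum_mul, Finset.mul_sum]
  refine Finset.sum_congr rfl fun w _ => ?_
  have hS : (TLRep.Sp (w : ℕ)).eval (TLRep.lam (root k) v) =
    (Polynomial.Chebyshev.S ℂ ((w : ℕ) : ℤ)).eval (TLRep.lam (root k) v) := rfl
  rw [hS]
  ring

end Pool.Agent.Helper24.AEC
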