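import Pool.Agent.Helper24.AEC.Cross

namespace Pool.Agent.Helper24.AEC

namespace TLRep

variable {R : Type*} [Ring R] [Algebra ℂ R] {d : ℂ} (T : TLRep R d) (A : ℂ)

/-- nested cups -/
def C : ℕ → R
  | 0 => 1
  | p + 1 => T.cup p * C p

/-- nested caps -/
def N : ℕ → R
  | 0 => 1
  | p + 1 => N p * T.cap p

theorem C_zero : T.C 0 = 1 := rfl
theorem C_succ (p : ℕ) : T.C (p + 1) = T.cup p * T.C p := rfl
theorem N_zero : T.N 0 = 1 := rfl
theorem N_succ (p : ℕ) : T.N (p + 1) = T.N p * T.cap p := rfl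

variable {T}

theorem Typ.C {z : R} {m n : ℕ} (hz : T.Typ z m n) (q : ℕ) :
    (T.shift n).C q * z = z * (T.shift m).C q := by
  induction q with
  | zero => simp [C_zero]
  | succ q ih =>
    rw [C_succ, C_succ, mul_assoc, ih, ← mul_assoc, shift_cup, hz.1, mul_assoc, shift_cup]

theorem Typ.N {z : R} {m n : ℕ} (hz : T.Typ z m n) (q : ℕ) :
    (T.shift n).N q * z = z * (T.shift m).N q := by
  induction q with
  | zero => simp [N_zero]
  | succ q ih =>
    rw [N_succ, N_succ, mul_assoc, shift_cap, hz.2, ← mul_assoc, ih, mul_assoc, shift_cap]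

variable (T)

theorem typ_C (p m : ℕ) : T.Typ (T.C p) m (m + 2 * p) := by
  induction p with
  | zero => exact Typ.one m
  | succ p ih =>
    rw [C_succ]
    exact ((T.typ_cup (j := p) (m := m + 2 * p) (by omega)).mul ih)

theorem typ_N (p m : ℕ) : T.Typ (T.N p) (m + 2 * p) m := by
  induction p with
  | zero => exact Typ.one m
  | succ p ih =>
    rw [N_succ]
    exact (ih.mul (T.typ_cap (j := p) (m := m + 2 * p) (by omega)))

/-- a cup glued to the left legs of nested caps -/
theorem N_cup_left (j k : ℕ) :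
    T.N (j + k + 2) * T.cup j = T.N (j + k) * T.cap (j + 2 * k) := by
  induction k with
  | zero => rw [N_succ, mul_assoc]; simp [T.zag, N_succ]
  | succ k ih =>
    have h1 := T.cap_cup' j (j + k) (by omega)
    have h2 := T.cap_cap (j + k) (j + 2 * k) (by omega)
    calc T.N (j + (k + 1) + 2) * T.cup j
        = T.N (j + k + 2) * (T.cap (j + k + 2) * T.cup j) := by
          rw [← mul_assoc]; rfl
      _ = (T.N (j + k + 2) * T.cup j) * T.cap (j + k) := by rw [h1, mul_assoc]
      _ = T.N (j + k) * (T.cap (j + 2 * k) * T.cap (j + k)) := by rw [ih, mul_assoc]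
      _ = T.N (j + (k + 1)) * T.cap (j + 2 * (k + 1)) := by
          rw [← h2, ← mul_assoc]; rfl

/-- a cup glued to the right legs of nested caps -/
theorem N_cup_right (j k : ℕ) :
    T.N (j + k + 2) * T.cup (j + 2 * k + 2) = T.N (j + k) * T.cap j := by
  induction k with
  | zero => rw [N_succ, mul_assoc]; simp [T.zig, N_succ]
  | succ k ih =>
    have h1 := T.cap_cup (j + k + 2) (j + 2 * k + 2) (by omega)
    have h2 := T.cap_cap j (j + k) (by omega)
    calc T.N (j + (k + 1) + 2) * T.cup (j + 2 * (k + 1) + 2)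
        = T.N (j + k + 2) * (T.cap (j + k + 2) * T.cup (j + 2 * k + 2 + 2)) := by
          rw [← mul_assoc]; rfl
      _ = (T.N (j + k + 2) * T.cup (j + 2 * k + 2)) * T.cap (j + k + 2) := by rw [h1, mul_assoc]
      _ = T.N (j + k) * (T.cap j * T.cap (j + k + 2)) := by rw [ih, mul_assoc]
      _ = T.N (j + (k + 1)) * T.cap j := by
          rw [h2, ← mul_assoc]; rfl

theorem cap_C_right (j k : ℕ) :
    T.cap (j + 2 * k + 2) * T.C (j + k + 2) = T.cup j * T.C (j + k) := by
  induction k with
  | zero => rw [C_succ, ← mul_assoc]; simp [T.zag, C_succ]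
  | succ k ih =>
    have h1 := T.cap_cup' (j + k + 2) (j + 2 * k + 2) (by omega)
    have h2 := T.cup_cup j (j + k) (by omega)
    calc T.cap (j + 2 * (k + 1) + 2) * T.C (j + (k + 1) + 2)
        = (T.cap (j + 2 * k + 2 + 2) * T.cup (j + k + 2)) * T.C (j + k + 2) := by
          rw [mul_assoc]; rfl
      _ = T.cup (j + k + 2) * (T.cap (j + 2 * k + 2) * T.C (j + k + 2)) := by rw [h1, mul_assoc]
      _ = (T.cup (j + k + 2) * T.cup j) * T.C (j + k) := by rw [ih, mul_assoc]
      _ = T.cup j * T.C (j + (k + 1)) := by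
          rw [h2, mul_assoc]; rfl

theorem cap_C_left (j k : ℕ) :
    T.cap j * T.C (j + k + 2) = T.cup (j + 2 * k) * T.C (j + k) := by
  induction k with
  | zero => rw [C_succ, ← mul_assoc]; simp [T.zig, C_succ]
  | succ k ih =>
    have h1 := T.cap_cup j (j + k) (by omega)
    have h2 := T.cup_cup (j + k) (j + 2 * k) (by omega)
    calc T.cap j * T.C (j + (k + 1) + 2)
        = (T.cap j * T.cup (j + k + 2)) * T.C (j + k + 2) := by
          rw [mul_assoc]; rfl
      _ = T.cup (j + k) * (T.cap j * T.C (j + k + 2)) := by rw [h1, mul_assoc]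
      _ = (T.cup (j + k) * T.cup (j + 2 * k)) * T.C (j + k) := by rw [ih, mul_assoc]
      _ = T.cup (j + 2 * (k + 1)) * T.C (j + (k + 1)) := by
          rw [← h2, mul_assoc]; rfl

/-- strand `q` encircles the strands to its left -/
noncomputable def J (q : ℕ) : R := T.Mv A q * T.Lv A q

/-- a ring around `q` strands -/
noncomputable def rg (q : ℕ) : R := T.cap q * T.J A q * T.cup q

theorem typ_J {q m : ℕ} (h : q + 1 ≤ m) : T.Typ (T.J A q) m m :=
  (T.typ_Mv A h).mul (T.typ_Lv A h)

theorem J_zero : T.J A 0 = 1 := by simp [J, Mv_zero, Lv_zero]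

theorem J_succ (q : ℕ) : T.J A (q + 1) = T.sig A q * T.J A q * T.sig A q := by
  simp only [J, Mv_succ, Lv_succ, mul_assoc]

theorem rg_zero : T.rg A 0 = d • (1 : R) := by
  rw [rg, J_zero, mul_one, T.loop]

section slide

variable {A} (hA : A ≠ 0) (hd : d = -A ^ 2 - (A⁻¹) ^ 2)
include hA hd

theorem rg_succ (q : ℕ) : T.rg A (q + 1) = (1 - A ^ 4) • T.J A q + (A⁻¹ ^ 2) • T.rg A q := by
  have e1 : T.cap (q + 1) * T.J A q = T.J A q * T.cap (q + 1) :=
    (T.typ_J A (q := q) (m := q + 1) le_rfl).2 0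
  have e2 : T.cup (q + 1) * T.J A q = T.J A q * T.cup (q + 1) :=
    (T.typ_J A (q := q) (m := q + 1) le_rfl).1 0
  have a1 : T.cap (q + 1) * T.sig A q = A • T.cap (q + 1) + A⁻¹ • T.cap q := by
    unfold sig; rw [mul_add, mul_smul_comm, mul_smul_comm, mul_one, T.cap_succ_U]
  have a2 : T.sig A q * T.cup (q + 1) = A • T.cup (q + 1) + A⁻¹ • T.cup q := by
    unfold sig; rw [add_mul, smul_mul_assoc, smul_mul_assoc, one_mul, T.U_cup_succ]
  have b1 : T.cap (q + 1) * T.J A q * T.cup (q + 1) = d • T.J A q := by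
    rw [e1, mul_assoc, T.loop, mul_smul_comm, mul_one]
  have b2 : T.cap (q + 1) * T.J A q * T.cup q = T.J A q := by
    rw [e1, mul_assoc, T.zag, mul_one]
  have b3 : T.cap q * T.J A q * T.cup (q + 1) = T.J A q := by
    rw [mul_assoc, ← e2, ← mul_assoc, T.zig, one_mul]
  calc T.rg A (q + 1) = (T.cap (q + 1) * T.sig A q) * T.J A q * (T.sig A q * T.cup (q + 1)) := by
        rw [rg, J_succ]; simp only [mul_assoc]
    _ = (A * A * d + 2) • T.J A q + (A⁻¹ ^ 2) • T.rg A q := by
        rw [a1, a2]
        simp only [add_mul, mul_add, smul_mul_assoc, mul_smul_comm, b1, b2, b3]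
        rw [show T.cap q * T.J A q * T.cup q = T.rg A q from rfl]
        match_scalars <;> field_simp
        ring
    _ = _ := by
        congr 2
        rw [hd]; field_simp; ring

theorem typ_rg (q : ℕ) : T.Typ (T.rg A q) q q := by
  induction q with
  | zero => rw [rg_zero]; exact (Typ.one 0).smul d
  | succ q ih =>
    rw [T.rg_succ hA hd]
    exact ((T.typ_J A le_rfl).smul _).add ((ih.mono 1).smul _)

theorem rg_cup {q j : ℕ} (h : j ≤ q) : T.rg A (q + 2) * T.cup j = T.cup j * T.rg A q := by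
  have h1 := T.cup_cup j q h
  have h2 := T.cap_cup' j q h
  have h3 := T.Lv_cup hA hd h
  have h4 := T.Mv_cup hA hd h
  calc T.rg A (q + 2) * T.cup j
      = T.cap (q + 2) * (T.Mv A (q + 2) * T.Lv A (q + 2)) * (T.cup (q + 2) * T.cup j) := by
        simp only [rg, J, mul_assoc]
    _ = T.cap (q + 2) * T.Mv A (q + 2) * (T.Lv A (q + 2) * T.cup j) * T.cup q := by
        rw [h1]; simp only [mul_assoc]
    _ = T.cap (q + 2) * (T.Mv A (q + 2) * T.cup (1 + j)) * T.Lv A q * T.cup q := by
        rw [h3]; simp only [mul_assoc]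
    _ = (T.cap (q + 2) * T.cup j) * T.Mv A q * T.Lv A q * T.cup q := by
        rw [h4]; simp only [mul_assoc]
    _ = _ := by
        rw [h2]; simp only [rg, J, mul_assoc]

theorem cap_rg {q j : ℕ} (h : j ≤ q) : T.cap j * T.rg A (q + 2) = T.rg A q * T.cap j := by
  have h1 := T.cap_cap j q h
  have h2 := T.cap_cup j q h
  have h3 := T.cap_Lv hA hd h
  have h4 := T.cap_Mv hA hd h
  calc T.cap j * T.rg A (q + 2)
      = (T.cap j * T.cap (q + 2)) * (T.Mv A (q + 2) * T.Lv A (q + 2)) * T.cup (q + 2) := by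
        simp only [rg, J, mul_assoc]
    _ = T.cap q * (T.cap j * T.Mv A (q + 2)) * T.Lv A (q + 2) * T.cup (q + 2) := by
        rw [h1]; simp only [mul_assoc]
    _ = T.cap q * T.Mv A q * (T.cap (1 + j) * T.Lv A (q + 2)) * T.cup (q + 2) := by
        rw [h4]; simp only [mul_assoc]
    _ = T.cap q * T.Mv A q * T.Lv A q * (T.cap j * T.cup (q + 2)) := by
        rw [h3]; simp only [mul_assoc]
    _ = _ := by
        rw [h2]; simp only [rg, J, mul_assoc]

theorem X_U (p : ℕ) {n j : ℕ} (h : j ≤ n) :
    T.X A (n + 2) p * T.U j = T.U (p + j) * T.X A (n + 2) p := by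
  unfold U
  rw [← mul_assoc, T.X_cup_left hA hd p h, mul_assoc, ← T.cap_X_left hA hd p h, ← mul_assoc]

theorem X_sig (p : ℕ) {q j : ℕ} (h : j + 2 ≤ q) :
    T.X A q p * T.sig A j = T.sig A (p + j) * T.X A q p := by
  obtain ⟨k, rfl⟩ := Nat.exists_eq_add_of_le h
  have := T.X_U hA hd p (n := j + k) (j := j) (by omega)
  rw [show j + k + 2 = j + 2 + k by omega] at this
  unfold sig
  rw [mul_add, add_mul, mul_smul_comm, mul_smul_comm, smul_mul_assoc, smul_mul_assoc, this,
    mul_one, one_mul]

theorem X_Mv (p : ℕ) {q m : ℕ} (h : m + 1 ≤ q) :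
    T.X A q p * T.Mv A m = (T.shift p).Mv A m * T.X A q p := by
  induction m with
  | zero => simp [Mv_zero]
  | succ m ih =>
    rw [Mv_succ, Mv_succ, ← mul_assoc, T.X_sig hA hd p (by omega), mul_assoc, ih (by omega),
      mul_assoc, shift_sig]

theorem X_Lv (p : ℕ) {q m : ℕ} (h : m + 1 ≤ q) :
    T.X A q p * T.Lv A m = (T.shift p).Lv A m * T.X A q p := by
  induction m with
  | zero => simp [Lv_zero]
  | succ m ih =>
    rw [Lv_succ, Lv_succ, ← mul_assoc, ih (by omega), mul_assoc, T.X_sig hA hd p (by omega),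
      mul_assoc, shift_sig]

theorem X_rg (p : ℕ) {q m : ℕ} (h : m ≤ q) :
    T.X A q p * T.rg A m = (T.shift p).rg A m * T.X A q p := by
  induction m with
  | zero => rw [rg_zero, rg_zero, mul_smul_comm, smul_mul_assoc, mul_one, one_mul]
  | succ m ih =>
    rw [T.rg_succ hA hd, (T.shift p).rg_succ hA hd, mul_add, add_mul, mul_smul_comm,
      mul_smul_comm, ih (by omega), smul_mul_assoc, smul_mul_assoc]
    congr 2
    unfold J
    rw [← mul_assoc, T.X_Mv hA hd p (by omega), mul_assoc, T.X_Lv hA hd p (by omega), mul_assoc]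

/-- parallel rings: the closure of a cable around `q` strands is a power of a single ring -/
theorem nested_rings (p q : ℕ) :
    (T.shift q).N p * (T.X A p q * T.X A q p) * (T.shift q).C p = T.rg A q ^ p := by
  induction p with
  | zero => simp [N_zero, C_zero, X_zero_left, X_zero_right]
  | succ p ih =>
    have h1 : T.cap (q + p) * T.X A p q = T.X A p q * T.cap (q + p) := by
      have := (T.typ_X A (p := p) (q := q) (m := q + p) (by omega)).2 0
      simpa using this
    have h2 : T.cup (q + p) * T.X A q p = T.X A q p * T.cup (q + p) := by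
      have := (T.typ_X A (p := q) (q := p) (m := q + p) (by omega)).1 0
      simpa using this
    have h3 : (T.shift p).rg A q = T.cap (q + p) * ((T.shift p).Mv A q * (T.shift p).Lv A q) *
        T.cup (q + p) := by
      rw [rg, J, shift_cap, shift_cup, Nat.add_comm p q]
    have h4 := (T.typ_rg hA hd q).C p
    have h5 := T.X_rg hA hd p (q := q) (m := q) le_rfl
    rw [X_succ_left, X_succ_right, N_succ, C_succ, shift_cap, shift_cup]
    calc (T.shift q).N p * T.cap (q + p) * (T.X A p q * (T.shift p).Mv A q *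
          ((T.shift p).Lv A q * T.X A q p)) * (T.cup (q + p) * (T.shift q).C p)
        = (T.shift q).N p * (T.cap (q + p) * T.X A p q) * (T.shift p).Mv A q *
          (T.shift p).Lv A q * (T.X A q p * T.cup (q + p)) * (T.shift q).C p := by
          simp only [mul_assoc]
      _ = (T.shift q).N p * T.X A p q * (T.cap (q + p) * ((T.shift p).Mv A q *
          (T.shift p).Lv A q) * T.cup (q + p)) * T.X A q p * (T.shift q).C p := by
          rw [h1, ← h2]; simp only [mul_assoc]
      _ = (T.shift q).N p * T.X A p q * (T.X A q p * T.rg A q) * (T.shift q).C p := by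
          rw [← h3, h5]; simp only [mul_assoc]
      _ = ((T.shift q).N p * (T.X A p q * T.X A q p) * (T.shift q).C p) * T.rg A q := by
          simp only [mul_assoc]; rw [h4]
      _ = _ := by rw [ih, pow_succ]

end slide

end TLRep

end Pool.Agent.Helper24.AEC
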