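import Pool.Agent.Helper24.AEC.Defs
import Pool.Agent.Helper24.AEC.Ring

namespace Pool.Agent.Helper24.AEC

variable {R : Type*} [Ring R] [Algebra ℂ R] {d : ℂ} (T : TLRep R d)

/-! ### list lemmas -/

theorem getElem?_insertPair {α : Type} {j : ℕ} {s : List α} (h : j ≤ s.length) (a : α) (n : ℕ) :
    (insertPair j a s)[n]? = if n < j then s[n]? else if n < j + 2 then some a else s[n - 2]? := by
  unfold insertPair
  rw [List.getElem?_append]
  have hl : (s.take j).length = j := by simp [h]
  rw [hl]
  split_ifs with h1 h2
  · rw [List.getElem?_take_of_lt h1]
  · rcases (by omega : n - j = 0 ∨ n - j = 1) with h3 | h3 <;> rw [h3] <;> rfl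
  · obtain ⟨k, hk⟩ : ∃ k, n - j = k + 2 := ⟨n - j - 2, by omega⟩
    rw [hk]
    show (s.drop j)[k]? = _
    rw [List.getElem?_drop]
    congr 1; omega

theorem getElem?_removePair {α : Type} {i : ℕ} {s : List α} (h : i ≤ s.length) (n : ℕ) :
    (removePair i s)[n]? = if n < i then s[n]? else s[n + 2]? := by
  unfold removePair
  rw [List.getElem?_append]
  have hl : (s.take i).length = i := by simp [h]
  rw [hl]
  split_ifs with h1
  · rw [List.getElem?_take_of_lt h1]
  · rw [List.getElem?_drop]
    congr 1; omega

theorem length_insertPair {α : Type} {j : ℕ} {s : List α} (h : j ≤ s.length) (a : α) :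
    (insertPair j a s).length = s.length + 2 := by
  unfold insertPair; simp; omega

theorem length_removePair {α : Type} {j : ℕ} {s : List α} (h : j + 2 ≤ s.length) :
    (removePair j s).length = s.length - 2 := by
  unfold removePair; simp; omega

theorem removePair_insertPair_self {α : Type} {j : ℕ} {s : List α} (h : j ≤ s.length) (a : α) :
    removePair j (insertPair j a s) = s := by
  apply List.ext_getElem?
  intro n
  rw [getElem?_removePair (by rw [length_insertPair h]; omega), getElem?_insertPair h,
    getElem?_insertPair h]
  split_ifs <;> first | rfl | omega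

theorem removePair_insertPair_ge {α : Type} {j i : ℕ} {s : List α} (h : j ≤ i)
    (hi : i + 2 ≤ s.length) (a : α) :
    removePair (i + 2) (insertPair j a s) = insertPair j a (removePair i s) := by
  apply List.ext_getElem?
  intro n
  have h0 : j ≤ s.length := by omega
  rw [getElem?_removePair (by rw [length_insertPair h0]; omega), getElem?_insertPair h0,
    getElem?_insertPair h0, getElem?_insertPair (by rw [length_removePair hi]; omega),
    getElem?_removePair (by omega), getElem?_removePair (by omega)]
  split_ifs <;> first | rfl | omega | (congr 1; omega)

theorem removePair_insertPair_le {α : Type} {j i : ℕ} {s : List α} (h : i ≤ j)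
    (hj : j + 2 ≤ s.length) (a : α) :
    removePair i (insertPair (j + 2) a s) = insertPair j a (removePair i s) := by
  apply List.ext_getElem?
  intro n
  rw [getElem?_removePair (by rw [length_insertPair hj]; omega), getElem?_insertPair hj,
    getElem?_insertPair hj, getElem?_insertPair (by rw [length_removePair (by omega)]; omega),
    getElem?_removePair (by omega), getElem?_removePair (by omega)]
  split_ifs <;> first | rfl | omega | (congr 1; omega)

theorem map_insertPair {α β : Type} (g : α → β) (j : ℕ) (a : α) (s : List α) :
    (insertPair j a s).map g = insertPair j (g a) (s.map g) := by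
  simp [insertPair, List.map_take, List.map_drop]

theorem mem_insertPair {α : Type} {j : ℕ} {a x : α} {s : List α} :
    x ∈ insertPair j a s ↔ x = a ∨ x ∈ s := by
  unfold insertPair
  have : x ∈ s ↔ x ∈ s.take j ∨ x ∈ s.drop j := by
    rw [← List.mem_append, List.take_append_drop]
  rw [this]
  simp only [List.mem_append, List.mem_cons]
  tauto

theorem mem_of_mem_removePair {α : Type} {j : ℕ} {x : α} {s : List α}
    (h : x ∈ removePair j s) : x ∈ s := by
  unfold removePair at h
  rw [List.mem_append] at h
  rcases h with h | h
  · exact List.mem_of_mem_take h
  · exact List.mem_of_mem_drop h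

/-! ### arcs -/

/-- `x` is the composition of cups that realises the matching given by `s` -/
inductive Rep : List ℕ → R → Prop
  | nil : Rep [] 1
  | cup {s : List ℕ} {x : R} (i a : ℕ) (hi : i ≤ s.length) (ha : a ∉ s) (h : Rep s x) :
      Rep (insertPair i a s) (T.cup i * x)

variable {T}

theorem Rep.map {s : List ℕ} {x : R} (h : Rep T s x) (g : ℕ → ℕ)
    (hg : ∀ a ∈ s, ∀ b ∈ s, g a = g b → a = b) : Rep T (s.map g) x := by
  induction h with
  | nil => exact Rep.nil
  | cup i a hi ha h ih =>
    rename_i s x
    rw [map_insertPair]
    refine Rep.cup i (g a) (by simpa using hi) ?_ (ih (fun b hb c hc => hg b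
      (mem_insertPair.2 (Or.inr hb)) c (mem_insertPair.2 (Or.inr hc))))
    intro hmem
    obtain ⟨b, hb, hgb⟩ := List.mem_map.1 hmem
    have := hg b (mem_insertPair.2 (Or.inr hb)) a (mem_insertPair.2 (Or.inl rfl)) hgb
    subst this
    exact ha hb

theorem mem_joinArcs {i x : ℕ} {s : List ℕ} (h : x ∈ joinArcs i s) : x ∈ s := by
  unfold joinArcs at h
  obtain ⟨y, hy, rfl⟩ := List.mem_map.1 h
  have hys := mem_of_mem_removePair hy
  split_ifs with h1
  · rw [List.getD_eq_getElem?_getD]
    rcases h2 : s[i]? with _ | z
    · simpa using hys
    · simpa using List.mem_of_getElem? h2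
  · exact hys

theorem Rep.cap {s : List ℕ} {x : R} (h : Rep T s x) {i : ℕ} (hi : i + 2 ≤ s.length) :
    ∃ y, T.cap i * x = (if s[i]? = s[i + 1]? then d else 1) • y ∧ Rep T (joinArcs i s) y := by
  induction h generalizing i with
  | nil => simp at hi
  | cup j a hj ha h ih =>
    rename_i s x
    rw [length_insertPair hj] at hi
    have hget := getElem?_insertPair hj a
    rcases lt_trichotomy i j with hlt | heq | hgt
    · rcases Nat.lt_or_ge (i + 1) j with h2 | h2
      · -- i + 2 ≤ j
        obtain ⟨k, rfl⟩ : ∃ k, j = k + 2 := ⟨j - 2, by omega⟩
        obtain ⟨y, hy, hR⟩ := ih (i := i) (by omega)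
        have e1 : (insertPair (k + 2) a s)[i]? = s[i]? := by
          rw [hget, if_pos (show i < k + 2 by omega)]
        have e2 : (insertPair (k + 2) a s)[i + 1]? = s[i + 1]? := by
          rw [hget, if_pos (show i + 1 < k + 2 by omega)]
        refine ⟨T.cup k * y, ?_, ?_⟩
        · rw [← mul_assoc, T.cap_cup i k (by omega), mul_assoc, hy, mul_smul_comm, e1, e2]
        · have e : joinArcs i (insertPair (k + 2) a s) = insertPair k a (joinArcs i s) := by
            unfold joinArcs
            rw [removePair_insertPair_le (by omega) hj, map_insertPair, e2]
            have e3 : (if some a = s[i + 1]? then (insertPair (k + 2) a s).getD i a else a) = a := by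
              rw [if_neg]
              intro h3
              exact ha (List.mem_of_getElem? h3.symm)
            rw [e3]
            congr 1
            apply List.map_congr_left
            intro z _
            rw [List.getD_eq_getElem?_getD, e1, ← List.getD_eq_getElem?_getD]
          rw [e]
          refine Rep.cup k a ?_ (fun hm => ha (mem_joinArcs hm)) hR
          unfold joinArcs
          rw [List.length_map, length_removePair (by omega)]; omega
      · -- j = i + 1
        obtain rfl : j = i + 1 := by omega
        obtain ⟨b, hb⟩ : ∃ b, s[i]? = some b := ⟨s[i]'(by omega), List.getElem?_eq_getElem _⟩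
        have hab : a ≠ b := by
          rintro rfl; exact ha (List.mem_of_getElem? hb)
        have e1 : (insertPair (i + 1) a s)[i]? = some b := by
          rw [hget, if_pos (show i < i + 1 by omega), hb]
        have e2 : (insertPair (i + 1) a s)[i + 1]? = some a := by
          rw [hget, if_neg (show ¬ (i + 1 < i + 1) by omega),
            if_pos (show i + 1 < i + 1 + 2 by omega)]
        refine ⟨x, ?_, ?_⟩
        · rw [← mul_assoc, T.zig, one_mul, e1, e2, if_neg (by simpa using hab.symm), one_smul]
        · have e : joinArcs i (insertPair (i + 1) a s) = s := by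
            unfold joinArcs
            apply List.ext_getElem?
            intro n
            have eg : ∀ z, (insertPair (i + 1) a s).getD i z = b := by
              intro z; rw [List.getD_eq_getElem?_getD, e1]; rfl
            rw [List.getElem?_map, getElem?_removePair (by rw [length_insertPair hj]; omega)]
            simp only [eg, e2]
            rw [hget n, hget (n + 2)]
            rcases lt_trichotomy n i with h3 | h3 | h3
            · rw [if_pos h3, if_pos (by omega)]
              rcases h4 : s[n]? with _ | z
              · rfl
              · have : z ≠ a := by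
                  rintro rfl; exact ha (List.mem_of_getElem? h4)
                simp [this]
            · subst h3
              rw [if_neg (by omega), if_neg (by omega), if_pos (by omega), hb]
              simp
            · rw [if_neg (by omega), if_neg (by omega), if_neg (by omega)]
              rw [show n + 2 - 2 = n by omega]
              rcases h4 : s[n]? with _ | z
              · rfl
              · have : z ≠ a := by
                  rintro rfl; exact ha (List.mem_of_getElem? h4)
                simp [this]
          rw [e]; exact h
    · subst heq
      have e1 : (insertPair i a s)[i]? = some a := by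
        rw [hget, if_neg (show ¬ (i < i) by omega), if_pos (show i < i + 2 by omega)]
      have e2 : (insertPair i a s)[i + 1]? = some a := by
        rw [hget, if_neg (show ¬ (i + 1 < i) by omega), if_pos (show i + 1 < i + 2 by omega)]
      refine ⟨x, ?_, ?_⟩
      · rw [← mul_assoc, T.loop, smul_mul_assoc, one_mul, e1, e2, if_pos rfl]
      · have e : joinArcs i (insertPair i a s) = s := by
          unfold joinArcs
          rw [removePair_insertPair_self hj, e2]
          conv_rhs => rw [← List.map_id s]
          apply List.map_congr_left
          intro z hz
          rw [if_neg]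
          · rfl
          · intro h3
            injection h3 with h3
            subst h3
            exact ha hz
        rw [e]; exact h
    · rcases Nat.lt_or_ge (j + 1) i with h2 | h2
      · obtain ⟨k, rfl⟩ : ∃ k, i = k + 2 := ⟨i - 2, by omega⟩
        obtain ⟨y, hy, hR⟩ := ih (i := k) (by omega)
        have e1 : (insertPair j a s)[k + 2 + 1]? = s[k + 1]? := by
          rw [hget, if_neg (show ¬ (k + 2 + 1 < j) by omega),
            if_neg (show ¬ (k + 2 + 1 < j + 2) by omega)]; rfl
        have e2 : (insertPair j a s)[k + 2]? = s[k]? := by
          rw [hget, if_neg (show ¬ (k + 2 < j) by omega),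
            if_neg (show ¬ (k + 2 < j + 2) by omega)]; rfl
        refine ⟨T.cup j * y, ?_, ?_⟩
        · rw [← mul_assoc, T.cap_cup' j k (by omega), mul_assoc, hy, mul_smul_comm, e1, e2]
        · have e : joinArcs (k + 2) (insertPair j a s) = insertPair j a (joinArcs k s) := by
            unfold joinArcs
            rw [removePair_insertPair_ge (by omega) (by omega), map_insertPair, e1]
            have e3 : (if some a = s[k + 1]? then (insertPair j a s).getD (k + 2) a else a) = a := by
              rw [if_neg]
              intro h3
              exact ha (List.mem_of_getElem? h3.symm)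
            rw [e3]
            congr 1
            apply List.map_congr_left
            intro z _
            rw [List.getD_eq_getElem?_getD, e2, ← List.getD_eq_getElem?_getD]
          rw [e]
          refine Rep.cup j a ?_ (fun hm => ha (mem_joinArcs hm)) hR
          unfold joinArcs
          rw [List.length_map, length_removePair (by omega)]; omega
      · obtain rfl : i = j + 1 := by omega
        obtain ⟨b, hb⟩ : ∃ b, s[j]? = some b := ⟨s[j]'(by omega), List.getElem?_eq_getElem _⟩
        have hab : a ≠ b := by
          rintro rfl; exact ha (List.mem_of_getElem? hb)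
        have e1 : (insertPair j a s)[j + 1]? = some a := by
          rw [hget, if_neg (show ¬ (j + 1 < j) by omega), if_pos (show j + 1 < j + 2 by omega)]
        have e2 : (insertPair j a s)[j + 1 + 1]? = some b := by
          rw [hget, if_neg (show ¬ (j + 1 + 1 < j) by omega),
            if_neg (show ¬ (j + 1 + 1 < j + 2) by omega), show j + 1 + 1 - 2 = j by omega, hb]
        refine ⟨x, ?_, ?_⟩
        · rw [← mul_assoc, T.zag, one_mul, e1, e2, if_neg (by simpa using hab), one_smul]
        · have e : joinArcs (j + 1) (insertPair j a s) = s.map (fun z => if z = b then a else z) := by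
            unfold joinArcs
            apply List.ext_getElem?
            intro n
            have eg : ∀ z, (insertPair j a s).getD (j + 1) z = a := by
              intro z; rw [List.getD_eq_getElem?_getD, e1]; rfl
            rw [List.getElem?_map, List.getElem?_map,
              getElem?_removePair (by rw [length_insertPair hj]; omega)]
            simp only [eg, e2]
            rw [hget n, hget (n + 2)]
            rcases lt_trichotomy n j with h3 | h3 | h3
            · rw [if_pos (by omega), if_pos h3]
              rcases h4 : s[n]? with _ | z
              · rfl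
              · simp
            · subst h3
              rw [if_pos (by omega), if_neg (by omega), if_pos (by omega), hb]
              simp [hab]
            · rw [if_neg (by omega), if_neg (by omega), if_neg (by omega)]
              rw [show n + 2 - 2 = n by omega]
              rcases h4 : s[n]? with _ | z
              · rfl
              · simp
          rw [e]
          refine h.map _ ?_
          intro y hy z hz hyz
          have hya : y ≠ a := by rintro rfl; exact ha hy
          have hza : z ≠ a := by rintro rfl; exact ha hz
          by_cases h1 : y = b <;> by_cases h2 : z = b <;> simp_all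

/-! ### words -/

variable (T)

/-- the operator of a diagram -/
noncomputable def rho {L : Type} (A : ℂ) : List (Piece L) → R
  | [] => 1
  | .cup i _ :: D => rho A D * T.cup i
  | .cap i :: D => rho A D * T.cap i
  | .pos i :: D => rho A D * T.sig A i
  | .neg i :: D => rho A D * T.sig A⁻¹ i

theorem rho_append {L : Type} (A : ℂ) (D D' : List (Piece L)) :
    rho T A (D ++ D') = rho T A D' * rho T A D := by
  induction D with
  | nil => simp [rho]
  | cons x D ih => cases x <;> simp [rho, ih, mul_assoc]

/-- all the positions exist, and no strand is left at the top -/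
def Ok {L : Type} : List (Piece L) → ℕ → Prop
  | [], n => n = 0
  | .cup i _ :: D, n => i ≤ n ∧ Ok D (n + 2)
  | .cap i :: D, n => i + 2 ≤ n ∧ Ok D (n - 2)
  | .pos i :: D, n => i + 2 ≤ n ∧ Ok D n
  | .neg i :: D, n => i + 2 ≤ n ∧ Ok D n

/-- there is no crossing -/
def NoCross {L : Type} : List (Piece L) → Prop
  | [] => True
  | .cup _ _ :: D => NoCross D
  | .cap _ :: D => NoCross D
  | .pos _ :: _ => False
  | .neg _ :: _ => False

variable {T}

theorem rho_of_rep {L : Type} (A : ℂ) {D : List (Piece L)} (hD : NoCross D) {s : List ℕ} {x : R}
    (hx : Rep T s x) (hOk : Ok D s.length) {m : ℕ} (hm : ∀ a ∈ s, a < m) :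
    rho T A D * x = (d ^ closedCurves D s m) • (1 : R) := by
  induction D generalizing s x m with
  | nil =>
    have hs : s = [] := by simpa [Ok] using hOk
    have hx1 : x = 1 := by
      cases hx with
      | nil => rfl
      | cup i a hi ha h => exact absurd hs (by simp [insertPair])
    subst hs
    simp [rho, closedCurves, hx1]
  | cons p D ih =>
    cases p with
    | cup i c =>
      obtain ⟨h1, h2⟩ := hOk
      have hr : Rep T (insertPair i m s) (T.cup i * x) :=
        Rep.cup i m h1 (fun h => lt_irrefl _ (hm m h)) hx
      have := ih (by simpa [NoCross] using hD) hr (by rw [length_insertPair h1]; exact h2)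
        (m := m + 1) (by
          intro a ha
          rcases mem_insertPair.1 ha with rfl | ha
          · omega
          · have := hm a ha; omega)
      rw [← mul_assoc] at this
      simpa [rho, closedCurves] using this
    | cap i =>
      obtain ⟨h1, h2⟩ := hOk
      obtain ⟨y, hy, hr⟩ := hx.cap h1
      have hl : (joinArcs i s).length = s.length - 2 := by
        unfold joinArcs; rw [List.length_map, length_removePair h1]
      have := ih (by simpa [NoCross] using hD) hr (by rw [hl]; exact h2) (m := m)
        (fun a ha => hm a (mem_joinArcs ha))
      simp only [rho, closedCurves]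
      rw [mul_assoc, hy, mul_smul_comm, this, smul_smul, pow_add]
      congr 2
      split_ifs <;> simp
    | pos i => exact absurd hD (by simp [NoCross])
    | neg i => exact absurd hD (by simp [NoCross])

theorem states_ok {D : List (Piece Unit)} {n : ℕ} (hD : Ok D n) {S : ℤ × List (Piece Unit)}
    (hS : S ∈ states D) : Ok S.2 n ∧ NoCross S.2 := by
  induction D generalizing n S with
  | nil =>
    simp only [states, List.mem_singleton] at hS
    subst hS
    exact ⟨hD, trivial⟩
  | cons p D ih =>
    cases p with
    | cup i c =>
      simp only [states, List.mem_map] at hS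
      obtain ⟨S', hS', rfl⟩ := hS
      have := ih hD.2 hS'
      exact ⟨⟨hD.1, this.1⟩, this.2⟩
    | cap i =>
      simp only [states, List.mem_map] at hS
      obtain ⟨S', hS', rfl⟩ := hS
      have := ih hD.2 hS'
      exact ⟨⟨hD.1, this.1⟩, this.2⟩
    | pos i =>
      simp only [states, List.mem_append, List.mem_map] at hS
      rcases hS with ⟨S', hS', rfl⟩ | ⟨S', hS', rfl⟩
      · have := ih hD.2 hS'
        exact this
      · have := ih hD.2 hS'
        have h1 := hD.1
        refine ⟨⟨h1, ?_, ?_⟩, this.2⟩
        · omega
        · rw [show n - 2 + 2 = n by omega]; exact this.1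
    | neg i =>
      simp only [states, List.mem_append, List.mem_map] at hS
      rcases hS with ⟨S', hS', rfl⟩ | ⟨S', hS', rfl⟩
      · have := ih hD.2 hS'
        exact this
      · have := ih hD.2 hS'
        have h1 := hD.1
        refine ⟨⟨h1, ?_, ?_⟩, this.2⟩
        · omega
        · rw [show n - 2 + 2 = n by omega]; exact this.1

theorem rho_eq_sum_states {A : ℂ} (hA : A ≠ 0) (D : List (Piece Unit)) :
    rho T A D = ((states D).map (fun S => A ^ S.1 • rho T A S.2)).sum := by
  have key : ∀ (l : List (ℤ × List (Piece Unit))) (c : ℂ) (x : R),
      (l.map (fun S => c • (A ^ S.1 • (rho T A S.2 * x)))).sum =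
      (l.map (fun S => A ^ S.1 • rho T A S.2)).sum * (c • x) := by
    intro l c x
    induction l with
    | nil => simp
    | cons S l ih =>
      simp only [List.map_cons, List.sum_cons, ih, add_mul]
      simp only [smul_mul_assoc, mul_smul_comm]
  induction D with
  | nil => simp [states, rho]
  | cons p D ih =>
    cases p with
    | cup i c =>
      have := key (states D) 1 (T.cup i)
      simp only [one_smul] at this
      simp only [states, rho, List.map_map, Function.comp_def, ih, this]
    | cap i =>
      have := key (states D) 1 (T.cap i)
      simp only [one_smul] at this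
      simp only [states, rho, List.map_map, Function.comp_def, ih, this]
    | pos i =>
      have h1 := key (states D) A 1
      have h2 := key (states D) A⁻¹ (T.U i)
      simp only [states, rho, List.map_append, List.sum_append, List.map_map, Function.comp_def]
      rw [TLRep.sig, mul_add, ih, ← h1, ← h2]
      congr 2
      · refine List.map_congr_left fun S _ => ?_
        rw [mul_one, smul_smul, ← zpow_one_add₀ hA, add_comm]
      · refine List.map_congr_left fun S _ => ?_
        rw [smul_smul, ← zpow_neg_one, ← zpow_add₀ hA, TLRep.U, mul_assoc]
        congr 2
        ring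
    | neg i =>
      have h1 := key (states D) A⁻¹ 1
      have h2 := key (states D) A (T.U i)
      simp only [states, rho, List.map_append, List.sum_append, List.map_map, Function.comp_def]
      rw [TLRep.sig, mul_add, ih, inv_inv, ← h1, ← h2]
      congr 2
      · refine List.map_congr_left fun S _ => ?_
        rw [mul_one, smul_smul, ← zpow_neg_one, ← zpow_add₀ hA]
        congr 2
        ring
      · refine List.map_congr_left fun S _ => ?_
        rw [smul_smul, ← zpow_one_add₀ hA, TLRep.U, mul_assoc, add_comm]

/-- the operator of a closed diagram is its bracket -/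
theorem rho_eq_bracket {A : ℂ} (hA : A ≠ 0) (hd : d = -A ^ 2 - A⁻¹ ^ 2)
    {D : List (Piece Unit)} (hD : Ok D 0) : rho T A D = bracket A D • (1 : R) := by
  rw [rho_eq_sum_states hA, bracket]
  have : ∀ S ∈ states D, A ^ S.1 • rho T A S.2 =
      (A ^ S.1 * (-A ^ 2 - A⁻¹ ^ 2) ^ closedCurves S.2 [] 0) • (1 : R) := by
    intro S hS
    obtain ⟨h1, h2⟩ := states_ok hD hS
    have := rho_of_rep A h2 (Rep.nil (T := T)) h1 (m := 0) (by simp)
    rw [mul_one] at this
    rw [this, smul_smul, hd]
  rw [List.map_congr_left this]
  generalize states D = l
  induction l with
  | nil => simp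
  | cons S l ih => simp only [List.map_cons, List.sum_cons, add_smul, ih]

/-! ### cables -/

theorem rho_nestedCups (A : ℂ) (o p : ℕ) : rho T A (nestedCups o p) = (T.shift o).C p := by
  induction p with
  | zero => simp [nestedCups, rho, TLRep.C_zero]
  | succ p ih =>
    unfold nestedCups at ih ⊢
    rw [List.range_succ, List.map_append, rho_append, ih, TLRep.C_succ]
    simp [rho, TLRep.shift_cup]

theorem rho_nestedCaps (A : ℂ) (o p : ℕ) : rho T A (nestedCaps o p) = (T.shift o).N p := by
  induction p with
  | zero => simp [nestedCaps, rho, TLRep.N_zero]
  | succ p ih =>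
    unfold nestedCaps at ih ⊢
    rw [List.range_succ, List.reverse_append, List.map_append, rho_append, ih, TLRep.N_succ]
    simp [rho, TLRep.shift_cap]

theorem rho_map_pos (A : ℂ) (o q : ℕ) :
    rho T A ((List.range q).map (fun b => (Piece.pos (o + b) : Piece Unit))) =
      (T.shift o).Mv A q := by
  induction q with
  | zero => simp [rho, TLRep.Mv_zero]
  | succ q ih =>
    rw [List.range_succ, List.map_append, rho_append, ih, TLRep.Mv_succ]
    simp [rho, TLRep.shift_sig]

theorem rho_map_neg (A : ℂ) (o q : ℕ) :
    rho T A ((List.range q).map (fun b => (Piece.neg (o + b) : Piece Unit))) =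
      (T.shift o).Mv A⁻¹ q := by
  induction q with
  | zero => simp [rho, TLRep.Mv_zero]
  | succ q ih =>
    rw [List.range_succ, List.map_append, rho_append, ih, TLRep.Mv_succ]
    simp [rho, TLRep.shift_sig]

theorem rho_block_pos (A : ℂ) (o p q : ℕ) :
    rho T A (blockCrossing .pos o p q) = (T.shift o).X A p q := by
  induction p with
  | zero => simp [blockCrossing, rho, TLRep.X_zero_left]
  | succ p ih =>
    unfold blockCrossing at ih ⊢
    rw [List.range_succ, List.reverse_append, List.flatMap_append, rho_append, ih,
      TLRep.X_succ_left, TLRep.shift_shift, ← rho_map_pos]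
    simp

theorem rho_block_neg (A : ℂ) (o p q : ℕ) :
    rho T A (blockCrossing .neg o p q) = (T.shift o).X A⁻¹ p q := by
  induction p with
  | zero => simp [blockCrossing, rho, TLRep.X_zero_left]
  | succ p ih =>
    unfold blockCrossing at ih ⊢
    rw [List.range_succ, List.reverse_append, List.flatMap_append, rho_append, ih,
      TLRep.X_succ_left, TLRep.shift_shift, ← rho_map_neg]
    simp

end Pool.Agent.Helper24.AEC
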