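import Pool.Agent.Helper24.AEC.TL

namespace Pool.Agent.Helper24.AEC

namespace TLRep

variable {R : Type*} [Ring R] [Algebra ℂ R] {d : ℂ} (T : TLRep R d) (A : ℂ)

/-- strand `0` moves to the right across `q` strands -/
noncomputable def Mv : ℕ → R
  | 0 => 1
  | q + 1 => T.sig A q * Mv q

/-- strand `q` moves to the left across `q` strands -/
noncomputable def Lv : ℕ → R
  | 0 => 1
  | q + 1 => Lv q * T.sig A q

/-- block crossing of `p` strands with `q` strands -/
noncomputable def X : ℕ → ℕ → R
  | 0, _ => 1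
  | p + 1, q => X p q * (T.shift p).Mv A q

theorem Mv_zero : T.Mv A 0 = 1 := rfl
theorem Mv_succ (q : ℕ) : T.Mv A (q + 1) = T.sig A q * T.Mv A q := rfl
theorem Lv_zero : T.Lv A 0 = 1 := rfl
theorem Lv_succ (q : ℕ) : T.Lv A (q + 1) = T.Lv A q * T.sig A q := rfl
theorem X_zero_left (q : ℕ) : T.X A 0 q = 1 := rfl
theorem X_succ_left (p q : ℕ) : T.X A (p + 1) q = T.X A p q * (T.shift p).Mv A q := rfl

theorem typ_Mv {q m : ℕ} (h : q + 1 ≤ m) : T.Typ (T.Mv A q) m m := by
  induction q with
  | zero => exact Typ.one m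
  | succ q ih =>
    rw [Mv_succ]
    exact (T.typ_sig A (by omega)).mul (ih (by omega))

theorem typ_Lv {q m : ℕ} (h : q + 1 ≤ m) : T.Typ (T.Lv A q) m m := by
  induction q with
  | zero => exact Typ.one m
  | succ q ih =>
    rw [Lv_succ]
    exact (ih (by omega)).mul (T.typ_sig A (by omega))

theorem typ_X {p q m : ℕ} (h : p + q ≤ m) : T.Typ (T.X A p q) m m := by
  induction p with
  | zero => exact Typ.one m
  | succ p ih =>
    rw [X_succ_left]
    refine (ih (by omega)).mul ?_
    obtain ⟨k, rfl⟩ := Nat.exists_eq_add_of_le h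
    have := (T.shift p).typ_Mv A (q := q) (m := q + 1 + k) (by omega)
    rw [typ_shift] at this
    exact this.cast (by omega) (by omega)

variable {T}

theorem Typ.Mv {z : R} {m n : ℕ} (hz : T.Typ z m n) (q : ℕ) :
    (T.shift n).Mv A q * z = z * (T.shift m).Mv A q := by
  induction q with
  | zero => simp [Mv_zero]
  | succ q ih =>
    rw [Mv_succ, Mv_succ, mul_assoc, ih, ← mul_assoc, shift_sig, hz.sig, mul_assoc, shift_sig]

theorem Typ.Lv {z : R} {m n : ℕ} (hz : T.Typ z m n) (q : ℕ) :
    (T.shift n).Lv A q * z = z * (T.shift m).Lv A q := by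
  induction q with
  | zero => simp [Lv_zero]
  | succ q ih =>
    rw [Lv_succ, Lv_succ, mul_assoc, shift_sig, hz.sig, ← mul_assoc, ih, mul_assoc, shift_sig]

theorem Typ.shift {z : R} {m n : ℕ} (hz : T.Typ z m n) (s : ℕ) :
    ((T.shift n).shift s).cup 0 * z = z * ((T.shift m).shift s).cup 0 := by
  have := hz.1 s
  simpa [shift_cup] using this

theorem Typ.X {z : R} {m n : ℕ} (hz : T.Typ z m n) (p q : ℕ) :
    (T.shift n).X A p q * z = z * (T.shift m).X A p q := by
  induction p with
  | zero => simp [X_zero_left]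
  | succ p ih =>
    have h := hz.mono p
    rw [X_succ_left, X_succ_left, mul_assoc, shift_shift, shift_shift, h.Mv, ← mul_assoc, ih,
      mul_assoc]

variable (T)

theorem X_zero_right (p : ℕ) : T.X A p 0 = 1 := by
  induction p with
  | zero => rfl
  | succ p ih => rw [X_succ_left, ih, Mv_zero, one_mul]

theorem X_succ_right (p q : ℕ) : T.X A p (q + 1) = (T.shift q).Lv A p * T.X A p q := by
  induction p with
  | zero => simp [X_zero_left, Lv_zero]
  | succ p ih =>
    rw [X_succ_left, ih, Mv_succ, X_succ_left, Lv_succ, mul_assoc, mul_assoc, shift_sig, shift_sig]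
    congr 1
    rw [← mul_assoc, ← mul_assoc]
    congr 1
    have := (T.typ_X A (p := p) (q := q) (m := p + q) le_rfl).sig A 0
    rw [add_zero] at this
    rw [← this, Nat.add_comm]

theorem X_one_left (q : ℕ) : T.X A 1 q = T.Mv A q := by
  rw [X_succ_left, X_zero_left, one_mul, shift_zero]

theorem X_one_right (q : ℕ) : T.X A q 1 = T.Lv A q := by
  rw [X_succ_right, X_zero_right, mul_one, shift_zero]

/-- two strands passing a block, exchanged before or after -/
theorem Lv_Lv_sig (hA : A ≠ 0) (hd : d = -A ^ 2 - (A⁻¹) ^ 2) (p : ℕ) :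
    (T.shift 1).Lv A p * T.Lv A p * T.sig A p = T.sig A 0 * (T.shift 1).Lv A p * T.Lv A p := by
  induction p with
  | zero => simp [Lv_zero]
  | succ p ih =>
    have hc : T.sig A (p + 1) * T.Lv A p = T.Lv A p * T.sig A (p + 1) := by
      have := (T.typ_Lv A (q := p) (m := p + 1) le_rfl).sig A 0
      simpa using this
    rw [Lv_succ, Lv_succ, shift_sig, Nat.add_comm 1 p]
    have hb := T.braid hA hd p
    calc (T.shift 1).Lv A p * T.sig A (p + 1) * (T.Lv A p * T.sig A p) * T.sig A (p + 1)
        = (T.shift 1).Lv A p * (T.sig A (p + 1) * T.Lv A p) * T.sig A p * T.sig A (p + 1) := by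
          simp only [mul_assoc]
      _ = (T.shift 1).Lv A p * T.Lv A p * (T.sig A (p + 1) * T.sig A p * T.sig A (p + 1)) := by
          rw [hc]; simp only [mul_assoc]
      _ = ((T.shift 1).Lv A p * T.Lv A p * T.sig A p) * T.sig A (p + 1) * T.sig A p := by
          rw [← hb]; simp only [mul_assoc]
      _ = T.sig A 0 * (T.shift 1).Lv A p * (T.Lv A p * T.sig A (p + 1)) * T.sig A p := by
          rw [ih]; simp only [mul_assoc]
      _ = T.sig A 0 * ((T.shift 1).Lv A p * T.sig A (p + 1)) * (T.Lv A p * T.sig A p) := by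
          rw [← hc]; simp only [mul_assoc]

/-- Yang–Baxter equation for a block, a strand and a block -/
theorem yang_baxter (hA : A ≠ 0) (hd : d = -A ^ 2 - (A⁻¹) ^ 2) (p q : ℕ) :
    (T.shift q).Lv A p * T.X A p q * (T.shift p).Mv A q
      = T.Mv A q * (T.shift 1).X A p q * T.Lv A p := by
  induction q with
  | zero => simp [X_zero_right, Mv_zero]
  | succ q ih =>
    have h1 : T.X A p q * T.sig A (p + q) = T.sig A (p + q) * T.X A p q := by
      have := (T.typ_X A (p := p) (q := q) (m := p + q) le_rfl).sig A 0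
      simpa using this.symm
    have h2 := (T.shift q).Lv_Lv_sig A hA hd p
    simp only [shift_shift, shift_sig, Nat.add_zero, Nat.add_comm q p] at h2
    have h3 : T.Mv A q * (T.shift (q + 1)).Lv A p = (T.shift (q + 1)).Lv A p * T.Mv A q := by
      have := (T.typ_Mv A (q := q) (m := q + 1) le_rfl).Lv A p
      exact this.symm
    rw [X_succ_right, Mv_succ, shift_sig, Mv_succ, X_succ_right, shift_shift, Nat.add_comm 1 q]
    calc (T.shift (q + 1)).Lv A p * ((T.shift q).Lv A p * T.X A p q) *
          (T.sig A (p + q) * (T.shift p).Mv A q)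
        = (T.shift (q + 1)).Lv A p * (T.shift q).Lv A p * (T.X A p q * T.sig A (p + q)) *
          (T.shift p).Mv A q := by simp only [mul_assoc]
      _ = ((T.shift (q + 1)).Lv A p * (T.shift q).Lv A p * T.sig A (p + q)) * T.X A p q *
          (T.shift p).Mv A q := by rw [h1]; simp only [mul_assoc]
      _ = T.sig A q * (T.shift (q + 1)).Lv A p * ((T.shift q).Lv A p * T.X A p q *
          (T.shift p).Mv A q) := by rw [h2]; simp only [mul_assoc]
      _ = T.sig A q * ((T.shift (q + 1)).Lv A p * T.Mv A q) * (T.shift 1).X A p q *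
          T.Lv A p := by rw [ih]; simp only [mul_assoc]
      _ = T.sig A q * T.Mv A q * ((T.shift (q + 1)).Lv A p * (T.shift 1).X A p q) *
          T.Lv A p := by rw [← h3]; simp only [mul_assoc]

section slide

variable {A} (hA : A ≠ 0) (hd : d = -A ^ 2 - (A⁻¹) ^ 2)
include hA hd

theorem Mv_cup {n j : ℕ} (h : j ≤ n) :
    T.Mv A (n + 2) * T.cup (1 + j) = T.cup j * T.Mv A n := by
  induction n with
  | zero =>
    obtain rfl : j = 0 := by omega
    rw [Mv_succ, Mv_succ, Mv_zero, mul_one, mul_one, mul_assoc]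
    exact T.sig_sig_cup' hA hd 0
  | succ n ih =>
    rcases Nat.lt_or_ge n j with h1 | h1
    · obtain rfl : j = n + 1 := by omega
      rw [Mv_succ, Mv_succ, mul_assoc, mul_assoc]
      have h2 : T.Mv A (n + 1) * T.cup (1 + (n + 1)) = T.cup (1 + (n + 1)) * T.Mv A (n + 1) := by
        have := (T.typ_Mv A (q := n + 1) (m := n + 2) le_rfl).1 0
        rw [show 1 + (n + 1) = n + 2 + 0 by omega]
        exact this.symm
      rw [h2, ← mul_assoc, ← mul_assoc, mul_assoc (T.sig A (n + 1 + 1)),
        show 1 + (n + 1) = (n + 1) + 1 by omega, T.sig_sig_cup' hA hd (n + 1)]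
    · rw [Mv_succ, mul_assoc, ih h1, ← mul_assoc]
      have := (T.typ_cup (j := j) (m := n) h1).sig A 0
      rw [add_zero, add_zero] at this
      rw [this, mul_assoc, Mv_succ]

theorem cap_Mv {n j : ℕ} (h : j ≤ n) :
    T.cap j * T.Mv A (n + 2) = T.Mv A n * T.cap (1 + j) := by
  induction n with
  | zero =>
    obtain rfl : j = 0 := by omega
    rw [Mv_succ, Mv_succ, Mv_zero, one_mul, mul_one, ← mul_assoc]
    exact T.cap_sig_sig hA hd 0
  | succ n ih =>
    rcases Nat.lt_or_ge n j with h1 | h1
    · obtain rfl : j = n + 1 := by omega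
      rw [Mv_succ, Mv_succ, ← mul_assoc, ← mul_assoc, T.cap_sig_sig hA hd (n + 1)]
      have := (T.typ_Mv A (q := n + 1) (m := n + 2) le_rfl).2 0
      rw [show 1 + (n + 1) = n + 2 + 0 by omega]
      exact this
    · have := (T.typ_cap (j := j) (m := n) h1).sig A 0
      rw [add_zero, add_zero] at this
      rw [Mv_succ, ← mul_assoc, ← this, mul_assoc, ih h1, ← mul_assoc, Mv_succ]

theorem Lv_cup {n j : ℕ} (h : j ≤ n) :
    T.Lv A (n + 2) * T.cup j = T.cup (1 + j) * T.Lv A n := by
  induction n with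
  | zero =>
    obtain rfl : j = 0 := by omega
    rw [Lv_succ, Lv_succ, Lv_zero, one_mul, mul_one, mul_assoc]
    exact T.sig_sig_cup hA hd 0
  | succ n ih =>
    rcases Nat.lt_or_ge n j with h1 | h1
    · obtain rfl : j = n + 1 := by omega
      rw [Lv_succ, Lv_succ, mul_assoc, mul_assoc, T.sig_sig_cup hA hd (n + 1)]
      have := (T.typ_Lv A (q := n + 1) (m := n + 2) le_rfl).1 0
      rw [show 1 + (n + 1) = n + 2 + 0 by omega]
      exact this.symm
    · have := (T.typ_cup (j := j) (m := n) h1).sig A 0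
      rw [add_zero, add_zero] at this
      rw [Lv_succ, mul_assoc, this, ← mul_assoc, ih h1, mul_assoc, Lv_succ]

theorem cap_Lv {n j : ℕ} (h : j ≤ n) :
    T.cap (1 + j) * T.Lv A (n + 2) = T.Lv A n * T.cap j := by
  induction n with
  | zero =>
    obtain rfl : j = 0 := by omega
    rw [Lv_succ, Lv_succ, Lv_zero, one_mul, one_mul, ← mul_assoc]
    exact T.cap_sig_sig' hA hd 0
  | succ n ih =>
    rcases Nat.lt_or_ge n j with h1 | h1
    · obtain rfl : j = n + 1 := by omega
      have h2 := (T.typ_Lv A (q := n + 1) (m := n + 2) le_rfl).2 0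
      rw [Lv_succ, Lv_succ, ← mul_assoc, ← mul_assoc]
      rw [show 1 + (n + 1) = n + 2 + 0 by omega, h2, add_zero, mul_assoc, mul_assoc,
        ← mul_assoc (T.cap (n + 2)), T.cap_sig_sig' hA hd (n + 1)]
    · have := (T.typ_cap (j := j) (m := n) h1).sig A 0
      rw [add_zero, add_zero] at this
      rw [Lv_succ, ← mul_assoc, ih h1, mul_assoc, ← this, ← mul_assoc, Lv_succ]

/-- a cup on the right block slides through a block crossing -/
theorem X_cup_right (p : ℕ) {n j : ℕ} (h : j ≤ n) :
    T.X A p (n + 2) * T.cup (p + j) = T.cup j * T.X A p n := by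
  induction p with
  | zero => simp [X_zero_left]
  | succ p ih =>
    rw [X_succ_left, mul_assoc]
    have := (T.shift p).Mv_cup hA hd h
    rw [shift_cup, shift_cup, ← Nat.add_assoc] at this
    rw [this, ← mul_assoc, ih, mul_assoc, X_succ_left]

theorem cap_X_right (p : ℕ) {n j : ℕ} (h : j ≤ n) :
    T.cap j * T.X A p (n + 2) = T.X A p n * T.cap (p + j) := by
  induction p with
  | zero => simp [X_zero_left]
  | succ p ih =>
    rw [X_succ_left, ← mul_assoc, ih, mul_assoc]
    have := (T.shift p).cap_Mv hA hd h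
    rw [shift_cap, shift_cap, ← Nat.add_assoc] at this
    rw [this, ← mul_assoc, X_succ_left]

theorem X_cup_left (q : ℕ) {n j : ℕ} (h : j ≤ n) :
    T.X A (n + 2) q * T.cup j = T.cup (q + j) * T.X A n q := by
  induction q with
  | zero => simp [X_zero_right]
  | succ q ih =>
    rw [X_succ_right, mul_assoc, ih, ← mul_assoc]
    have := (T.shift q).Lv_cup hA hd h
    rw [shift_cup, shift_cup, ← Nat.add_assoc] at this
    rw [this, mul_assoc, X_succ_right]

theorem cap_X_left (q : ℕ) {n j : ℕ} (h : j ≤ n) :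
    T.cap (q + j) * T.X A (n + 2) q = T.X A n q * T.cap j := by
  induction q with
  | zero => simp [X_zero_right]
  | succ q ih =>
    have := (T.shift q).cap_Lv hA hd h
    rw [shift_cap, shift_cap, ← Nat.add_assoc] at this
    rw [X_succ_right, ← mul_assoc, this, mul_assoc, ih, ← mul_assoc, X_succ_right]

end slide

end TLRep

end Pool.Agent.Helper24.AEC
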