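import Mathlib

/-!
# The quantum `SU(2)` invariants of closed oriented 3-manifolds, from surgery and the Kauffman bracket

A closed oriented 3-manifold is presented by surgery on a framed link in the 3-sphere (every
closed connected oriented 3-manifold is, by Lickorish and Wallace), and the framed link by a
diagram in the plane, with the blackboard framing.  The level `k` invariant is Lickorish's skein
theoretic one, in Witten's normalisation: the value on the 3-sphere is `√(2/r) sin (π/r)`, and the
value on the product of the circle and the 2-sphere is `1`, where `r = k + 2`.
-/

namespace Pool.Agent.Helper24.AEC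

open Finset Complex

/-- One elementary piece of a diagram in the plane in Morse position, read from bottom to top; the
strands that exist at a given height are numbered `0, 1, 2, …` from the left.

* `cup i c`: a local minimum, which creates two new adjacent strands at the positions `i` and
  `i + 1`; they carry the label `c`;
* `cap i`: a local maximum, which joins the strands at the positions `i` and `i + 1`;
* `pos i`: the strands at the positions `i` and `i + 1` cross, and the one that goes from `i` to
  `i + 1` passes over the other;
* `neg i`: the same crossing with over and under exchanged. -/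
inductive Piece (L : Type) where
  | cup (i : ℕ) (c : L)
  | cap (i : ℕ)
  | pos (i : ℕ)
  | neg (i : ℕ)

/-- insert the entry `a` twice, at the positions `i` and `i + 1` -/
def insertPair {α : Type} (i : ℕ) (a : α) (s : List α) : List α :=
  s.take i ++ a :: a :: s.drop i

/-- remove the entries at the positions `i` and `i + 1` -/
def removePair {α : Type} (i : ℕ) (s : List α) : List α :=
  s.take i ++ s.drop (i + 2)

/-- exchange the entries at the positions `i` and `i + 1` -/
def swapPair {α : Type} (i : ℕ) (s : List α) : List α :=
  s.take i ++ ((s.drop i).take 2).reverse ++ s.drop (i + 2)

/-- `WellFormed D s`: if the strands at the bottom of `D` carry the labels `s`, then all the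
positions in `D` exist, every cap joins two strands with the same label, and no strand is left at
the top of `D`. -/
def WellFormed {L : Type} : List (Piece L) → List L → Prop
  | [], s => s = []
  | .cup i c :: D, s => i ≤ s.length ∧ WellFormed D (insertPair i c s)
  | .cap i :: D, s => i + 2 ≤ s.length ∧ s[i]? = s[i + 1]? ∧ WellFormed D (removePair i s)
  | .pos i :: D, s => i + 2 ≤ s.length ∧ WellFormed D (swapPair i s)
  | .neg i :: D, s => i + 2 ≤ s.length ∧ WellFormed D (swapPair i s)

/-- The arcs after a cap at the position `i`: the two arcs that end there become one.  A list of
arcs `s` says which arc each of the strands at the current height belongs to. -/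
def joinArcs (i : ℕ) (s : List ℕ) : List ℕ :=
  (removePair i s).map (fun x => if some x = s[i + 1]? then s.getD i x else x)

/-- The number of closed curves of the diagram `D`: the arcs at its bottom are given by `s`, and
`m` is the first unused name of an arc.  The curves pass straight through the crossings. -/
def closedCurves {L : Type} : List (Piece L) → List ℕ → ℕ → ℕ
  | [], _, _ => 0
  | .cup i _ :: D, s, m => closedCurves D (insertPair i m s) (m + 1)
  | .cap i :: D, s, m => (if s[i]? = s[i + 1]? then 1 else 0) + closedCurves D (joinArcs i s) m
  | .pos i :: D, s, m => closedCurves D (swapPair i s) m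
  | .neg i :: D, s, m => closedCurves D (swapPair i s) m

/-- The states of a diagram in the sense of Kauffman: every crossing is smoothed in one of the two
ways, vertically or horizontally (a cap followed by a cup).  A state `S` is listed with the number
of its `A`-smoothings minus the number of its `A⁻¹`-smoothings. -/
def states : List (Piece Unit) → List (ℤ × List (Piece Unit))
  | [] => [(0, [])]
  | .cup i c :: D => (states D).map (fun S => (S.1, .cup i c :: S.2))
  | .cap i :: D => (states D).map (fun S => (S.1, .cap i :: S.2))
  | .pos i :: D => (states D).map (fun S => (S.1 + 1, S.2)) ++
      (states D).map (fun S => (S.1 - 1, .cap i :: .cup i () :: S.2))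
  | .neg i :: D => (states D).map (fun S => (S.1 - 1, S.2)) ++
      (states D).map (fun S => (S.1 + 1, .cap i :: .cup i () :: S.2))

/-- The Kauffman bracket of a diagram, normalised by the value `1` on the empty diagram. -/
noncomputable def bracket (A : ℂ) (D : List (Piece Unit)) : ℂ :=
  ((states D).map (fun S => A ^ S.1 * (-A ^ 2 - A⁻¹ ^ 2) ^ closedCurves S.2 [] 0)).sum

/-- `p` nested cups; the outermost one is at the position `o` -/
def nestedCups (o p : ℕ) : List (Piece Unit) :=
  (List.range p).map (fun j => .cup (o + j) ())

/-- `p` nested caps; the outermost one is at the position `o` -/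
def nestedCaps (o p : ℕ) : List (Piece Unit) :=
  (List.range p).reverse.map (fun j => .cap (o + j))

/-- the `p` parallel strands from the position `o` on cross the `q` parallel strands that follow
them; `x` is the kind of the crossings -/
def blockCrossing (x : ℕ → Piece Unit) (o p q : ℕ) : List (Piece Unit) :=
  (List.range p).reverse.flatMap (fun a => (List.range q).map (fun b => x (o + a + b)))

/-- The cable of the diagram `D` in which the component with the label `c` is replaced by `m c`
parallel copies of itself, with respect to the blackboard framing.  The list `s` holds the numbers
of copies of the strands at the bottom of `D`. -/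
def cable {L : Type} (m : L → ℕ) : List (Piece L) → List ℕ → List (Piece Unit)
  | [], _ => []
  | .cup i c :: D, s =>
      nestedCups (s.take i).sum (m c) ++ cable m D (insertPair i (m c) s)
  | .cap i :: D, s =>
      nestedCaps (s.take i).sum (s.getD i 0) ++ cable m D (removePair i s)
  | .pos i :: D, s =>
      blockCrossing .pos (s.take i).sum (s.getD i 0) (s.getD (i + 1) 0) ++ cable m D (swapPair i s)
  | .neg i :: D, s =>
      blockCrossing .neg (s.take i).sum (s.getD i 0) (s.getD (i + 1) 0) ++ cable m D (swapPair i s)

/-- `D` is a diagram of a framed link with `n` components, which carry the labels `0, …, n - 1`: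
it is a closed diagram, and if all the components but the one labelled `c` are deleted, what is
left is a single closed curve. -/
def IsLinkDiagram {n : ℕ} (D : List (Piece (Fin n))) : Prop :=
  WellFormed D [] ∧ ∀ c, closedCurves (cable (Pi.single c 1) D []) [] 0 = 1

/-- The bracket of the link diagram `D` whose component `c` is coloured by the Chebyshev polynomial
`S_j`, `j = col c` (that is, by the Jones–Wenzl idempotent on `j` strands): a monomial `x ^ m`
stands for `m` parallel copies of the component.  All the colours are at most `k`, so the degrees
of the polynomials are too. -/
noncomputable def colouredBracket {n : ℕ} (A : ℂ) (D : List (Piece (Fin n))) (k : ℕ)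
    (col : Fin n → Fin (k + 1)) : ℂ :=
  ∑ m : Fin n → Fin (k + 1),
    (∏ c, (Polynomial.Chebyshev.S ℂ ((col c : ℕ) : ℤ)).coeff (m c : ℕ)) *
      bracket A (cable (fun c => (m c : ℕ)) D [])

/-- the primitive `4r`-th root of unity `A = -e ^ (π i / 2r)`, `r = k + 2`; so `A ^ 4 = q` is
`e ^ (2 π i / r)` -/
noncomputable def root (k : ℕ) : ℂ := -Complex.exp (Real.pi * I / (2 * (k + 2)))

/-- `μ = √(2/r) sin (π/r)`, `r = k + 2`, the invariant of the 3-sphere -/
noncomputable def mu (k : ℕ) : ℝ := Real.sqrt (2 / (k + 2)) * Real.sin (Real.pi / (k + 2))

/-- the central charge of `SU(2)` at level `k` -/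
noncomputable def centralCharge (k : ℕ) : ℝ := 3 * k / (k + 2)

/-- The level `k` quantum `SU(2)` invariant of the closed oriented 3-manifold obtained from the
3-sphere by surgery on the framed link with the diagram `D`.  Every component carries the skein
element `ω = μ ∑ Δ_j S_j`, where `j` runs through the colours `0, …, k` and
`Δ_j = S_j (-A ^ 2 - A⁻²)`.  The integer `t` says which 2-framing of the 3-manifold is used: one
step changes the invariant by the factor `e ^ (2 π i c / 24)`, with `c` the central charge.  The
canonical 2-framing has `t = -3 σ`, where `σ` is the signature of the linking matrix of the framed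
link. -/
noncomputable def Z {n : ℕ} (D : List (Piece (Fin n))) (t : ℤ) (k : ℕ) : ℂ :=
  Complex.exp (2 * Real.pi * I * centralCharge k / 24 * t) * mu k *
    ∑ col : Fin n → Fin (k + 1),
      (∏ c, mu k * (Polynomial.Chebyshev.S ℂ ((col c : ℕ) : ℤ)).eval
        (-root k ^ 2 - (root k)⁻¹ ^ 2)) * colouredBracket (root k) D k col

end Pool.Agent.Helper24.AEC
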