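import Pool.Agent.Helper24.AEC.JW

namespace Pool.Agent.Helper24.AEC

open Polynomial

namespace TLRep

variable {R : Type*} [Ring R] [Algebra ℂ R] {d : ℂ} (T : TLRep R d)

/-- the Chebyshev polynomial `S_j` -/
noncomputable def Sp (j : ℕ) : ℂ[X] := Chebyshev.S ℂ (j : ℤ)

variable {T}

theorem Kill.aeval_rg {A : ℂ} (hA : A ≠ 0) (hd : d = -A ^ 2 - (A⁻¹) ^ 2) {n : ℕ} {g : R}
    (h : T.Kill n g) (P : ℂ[X]) : aeval (T.rg A n) P * g = P.eval (lam A n) • g := by
  induction P using Polynomial.induction_on with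
  | C a => simp [Algebra.algebraMap_eq_smul_one]
  | add p q hp hq => rw [map_add, add_mul, hp, hq, eval_add, add_smul]
  | monomial n a ih =>
    have e : (Polynomial.C a * Polynomial.X ^ (n + 1) : ℂ[X]) =
        (Polynomial.C a * Polynomial.X ^ n) * Polynomial.X := by ring
    rw [e, map_mul, mul_assoc, aeval_X, h.rg hA hd, mul_smul_comm, ih, smul_smul]
    congr 1
    simp only [eval_mul, eval_X]
    ring

variable (T)

theorem Kills.kill {n : ℕ} (h : T.Kills n) : T.Kill n (T.f n) := fun j hj => (h j hj).1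

variable {k : ℕ} (hk : ∀ n ≤ k, del d n ≠ 0)
include hk

theorem N_f_C {n : ℕ} (hn : n ≤ k) : T.N n * T.f n * T.C n = del d n • (1 : R) := by
  induction n with
  | zero => simp [N_zero, C_zero, f_zero, del_zero]
  | succ n ih =>
    have h := (T.kills hk (n := n) (by omega)).ptrace (hk n (by omega))
    have hn0 := hk n (by omega)
    calc T.N (n + 1) * T.f (n + 1) * T.C (n + 1)
        = T.N n * (T.cap n * T.f (n + 1) * T.cup n) * T.C n := by
          rw [N_succ, C_succ]; simp only [mul_assoc]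
      _ = (del d (n + 1) / del d n) • (T.N n * T.f n * T.C n) := by
          rw [h]; simp
      _ = _ := by
          rw [ih (by omega), smul_smul]; congr 1; field_simp

variable {A : ℂ} (hA : A ≠ 0) (hd : d = -A ^ 2 - (A⁻¹) ^ 2)
include hA hd

/-- a coloured ring around `q` strands -/
theorem sum_ring (q : ℕ) {j : ℕ} (hj : j ≤ k) :
    (T.shift q).N j * T.F A q j * (T.shift q).f j * (T.shift q).C j = aeval (T.rg A q) (Sp j) := by
  rw [← (T.natl_F hA hd q).sum_S hk hj, Sp,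
    aeval_eq_sum_range' (lt_of_le_of_lt (natDegree_S_le j) (show j < k + 1 by omega))]
  refine Finset.sum_congr rfl fun p _ => ?_
  rw [F, T.nested_rings hA hd]

/-- a coloured ring with two kinks around `q` strands -/
theorem sum_leaf {B : ℂ} (hB : B ≠ 0) (hBd : d = -B ^ 2 - (B⁻¹) ^ 2) (q : ℕ) {j : ℕ} (hj : j ≤ k) :
    ∑ p ∈ Finset.range (k + 1), (Sp j).coeff p •
      ((T.shift q).N p * (T.F A q p * ((T.shift q).K B p * (T.shift q).K B p)) * (T.shift q).C p)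
      = (tw B j ^ 2) • aeval (T.rg A q) (Sp j) := by
  have hY := (T.natl_F hA hd q).mul
    (((T.shift q).natl_K hB hBd).mul ((T.shift q).natl_K hB hBd))
  have h := hY.sum_S hk hj
  unfold Sp
  rw [h]
  have hkill := ((T.shift q).kills hk (n := j) (by omega)).kill
  rw [mul_assoc ((T.shift q).N j), mul_assoc (T.F A q j), mul_assoc ((T.shift q).K B j),
    hkill.K hB hBd, mul_smul_comm, hkill.K hB hBd, smul_smul, mul_smul_comm, mul_smul_comm,
    smul_mul_assoc, ← mul_assoc, T.sum_ring hk hA hd q hj, sq]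
  rfl

/-- a coloured ring around `q` strands that itself is encircled -/
theorem sum_chain (q : ℕ) {j : ℕ} (hj : j ≤ k) (P : ℂ[X]) :
    ∑ p ∈ Finset.range (k + 1), (Sp j).coeff p •
      ((T.shift q).N p * (T.F A q p * aeval ((T.shift q).rg A p) P) * (T.shift q).C p)
      = (P.eval (lam A j)) • aeval (T.rg A q) (Sp j) := by
  have hY := (T.natl_F hA hd q).mul (((T.shift q).natl_rg hA hd).aeval P)
  have h := hY.sum_S hk hj
  unfold Sp
  rw [h]
  have hkill := ((T.shift q).kills hk (n := j) (by omega)).kill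
  rw [mul_assoc ((T.shift q).N j), mul_assoc (T.F A q j), hkill.aeval_rg hA hd, mul_smul_comm,
    mul_smul_comm, smul_mul_assoc, ← mul_assoc, T.sum_ring hk hA hd q hj]
  rfl

/-- a coloured circle that is encircled -/
theorem sum_last {j : ℕ} (hj : j ≤ k) (P : ℂ[X]) :
    ∑ p ∈ Finset.range (k + 1), (Sp j).coeff p • (T.N p * aeval (T.rg A p) P * T.C p)
      = (P.eval (lam A j) * del d j) • (1 : R) := by
  have hY := (T.natl_rg hA hd).aeval P
  have h := hY.sum_S hk hj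
  unfold Sp
  rw [h]
  have hkill := (T.kills hk (n := j) (by omega)).kill
  rw [mul_assoc (T.N j), hkill.aeval_rg hA hd, mul_smul_comm, smul_mul_assoc, T.N_f_C hk hj,
    smul_smul]

end TLRep

/-! ### sums over multiplicities -/

theorem sum_vec_succ {M : Type*} [AddCommMonoid M] {n : ℕ} {ι : Type*} [Fintype ι]
    (f : (Fin (n + 1) → ι) → M) : ∑ m, f m = ∑ a, ∑ m : Fin n → ι, f (Matrix.vecCons a m) := by
  rw [← Fintype.sum_prod_type' (f := fun a (m : Fin n → ι) => f (Matrix.vecCons a m))]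
  exact ((Fin.consEquiv (fun _ => ι)).sum_comp f).symm

theorem sum_vec_six {M : Type*} [AddCommMonoid M] {ι : Type*} [Fintype ι]
    (f : (Fin 6 → ι) → M) :
    ∑ m, f m = ∑ a0, ∑ a1, ∑ a2, ∑ a3, ∑ a4, ∑ a5, f ![a0, a1, a2, a3, a4, a5] := by
  simp only [sum_vec_succ, Fintype.sum_unique]
  rfl

theorem six_sum {ι : Type*} [Fintype ι] {R : Type*} [Ring R] [Algebra ℂ R]
    (c0 c1 c2 c3 c4 c5 : ι → ℂ) (N0 C0 : ι → R) (L1 L2 N3 C3 : ι → ι → R)
    (L4 L5 : ι → ι → ι → R) :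
    ∑ a0, ∑ a1, ∑ a2, ∑ a3, ∑ a4, ∑ a5, (c0 a0 * c1 a1 * c2 a2 * c3 a3 * c4 a4 * c5 a5) •
      (N0 a0 * (N3 a0 a3 * L5 a0 a3 a5 * L4 a0 a3 a4 * C3 a0 a3) * L2 a0 a2 * L1 a0 a1 * C0 a0) =
    ∑ a0, c0 a0 • (N0 a0 * (∑ a3, c3 a3 • (N3 a0 a3 * (∑ a5, c5 a5 • L5 a0 a3 a5) *
      (∑ a4, c4 a4 • L4 a0 a3 a4) * C3 a0 a3)) * (∑ a2, c2 a2 • L2 a0 a2) *
      (∑ a1, c1 a1 • L1 a0 a1) * C0 a0) := by
  refine Finset.sum_congr rfl fun a0 _ => ?_
  have h3 : ∀ a3, c3 a3 • (N3 a0 a3 * (∑ a5, c5 a5 • L5 a0 a3 a5) *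
      (∑ a4, c4 a4 • L4 a0 a3 a4) * C3 a0 a3) = ∑ a4, ∑ a5, (c3 a3 * c4 a4 * c5 a5) •
      (N3 a0 a3 * L5 a0 a3 a5 * L4 a0 a3 a4 * C3 a0 a3) := by
    intro a3
    simp only [Finset.mul_sum, Finset.sum_mul, Finset.smul_sum, smul_mul_assoc, mul_smul_comm,
      smul_smul]
    refine Finset.sum_congr rfl fun a4 _ => Finset.sum_congr rfl fun a5 _ => ?_
    congr 1; ring
  simp only [h3]
  set W : R := ∑ a3, ∑ a4, ∑ a5, (c3 a3 * c4 a4 * c5 a5) •
      (N3 a0 a3 * L5 a0 a3 a5 * L4 a0 a3 a4 * C3 a0 a3) with hW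
  have h2 : ∀ a1 a2, ∑ a3, ∑ a4, ∑ a5, (c0 a0 * c1 a1 * c2 a2 * c3 a3 * c4 a4 * c5 a5) •
      (N0 a0 * (N3 a0 a3 * L5 a0 a3 a5 * L4 a0 a3 a4 * C3 a0 a3) * L2 a0 a2 * L1 a0 a1 * C0 a0) =
      (c0 a0 * c1 a1 * c2 a2) • (N0 a0 * W * L2 a0 a2 * L1 a0 a1 * C0 a0) := by
    intro a1 a2
    rw [hW]
    simp only [Finset.mul_sum, Finset.sum_mul, Finset.smul_sum, smul_mul_assoc, mul_smul_comm,
      smul_smul]
    refine Finset.sum_congr rfl fun a3 _ => Finset.sum_congr rfl fun a4 _ =>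
      Finset.sum_congr rfl fun a5 _ => ?_
    congr 1; ring
  simp only [h2]
  simp only [Finset.mul_sum, Finset.sum_mul, Finset.smul_sum, smul_mul_assoc, mul_smul_comm,
      smul_smul]
  refine Finset.sum_congr rfl fun a1 _ => Finset.sum_congr rfl fun a2 _ => ?_
  congr 1; ring

end Pool.Agent.Helper24.AEC
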