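import Pool.Agent.Helper24.AEC.TL

namespace Pool.Agent.Helper24.AEC

open Complex

namespace Vertex

def del (i : ℕ) (s : ℕ → Bool) : ℕ → Bool := fun n => if n < i then s n else s (n + 2)

def ins (i : ℕ) (a b : Bool) (s : ℕ → Bool) : ℕ → Bool :=
  fun n => if n < i then s n else if n = i then a else if n = i + 1 then b else s (n - 2)

/-- the matrix of the vertex model -/
noncomputable def mat (A : ℂ) : Bool → Bool → ℂ
  | false, true => I * A
  | true, false => -I * A⁻¹
  | _, _ => 0

theorem mat_mul {A : ℂ} (hA : A ≠ 0) (a c : Bool) :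
    ∑ b, mat A a b * mat A b c = if a = c then 1 else 0 := by
  have h1 : I * A * (-I * A⁻¹) = 1 := by
    calc I * A * (-I * A⁻¹) = -(I * I) * (A * A⁻¹) := by ring
      _ = 1 := by rw [I_mul_I, mul_inv_cancel₀ hA]; ring
  have h2 : (-I * A⁻¹) * (I * A) = 1 := by rw [mul_comm]; exact h1
  rcases a with _ | _ <;> rcases c with _ | _ <;> simp [mat] <;>
    first | (simpa using h1) | (simpa using h2)

theorem mat_sq (A : ℂ) : ∑ a, ∑ b, mat A a b * mat A a b = -A ^ 2 - A⁻¹ ^ 2 := by
  have h1 : I * A * (I * A) = -A ^ 2 := by
    calc I * A * (I * A) = (I * I) * A ^ 2 := by ring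
      _ = _ := by rw [I_mul_I]; ring
  have h2 : (-I * A⁻¹) * (-I * A⁻¹) = -A⁻¹ ^ 2 := by
    calc (-I * A⁻¹) * (-I * A⁻¹) = (I * I) * A⁻¹ ^ 2 := by ring
      _ = _ := by rw [I_mul_I]; ring
  simp only [Fintype.sum_bool, mat, mul_zero, zero_add, add_zero]
  rw [h1, h2]; ring

/-- functions of the spins on the strands -/
abbrev V := (ℕ → Bool) → ℂ

noncomputable def cupOp (A : ℂ) (i : ℕ) : Module.End ℂ V where
  toFun f := fun s => mat A (s i) (s (i + 1)) * f (del i s)
  map_add' f g := by funext s; simp [mul_add]
  map_smul' c f := by funext s; simp [mul_left_comm]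

noncomputable def capOp (A : ℂ) (i : ℕ) : Module.End ℂ V where
  toFun f := fun s => ∑ a, ∑ b, mat A a b * f (ins i a b s)
  map_add' f g := by funext s; simp only [Pi.add_apply, mul_add, Finset.sum_add_distrib]
  map_smul' c f := by
    funext s
    simp only [Pi.smul_apply, smul_eq_mul, RingHom.id_apply, Finset.mul_sum, mul_left_comm]

theorem cupOp_apply (A : ℂ) (i : ℕ) (f : V) (s : ℕ → Bool) :
    cupOp A i f s = mat A (s i) (s (i + 1)) * f (del i s) := rfl

theorem capOp_apply (A : ℂ) (i : ℕ) (f : V) (s : ℕ → Bool) :
    capOp A i f s = ∑ a, ∑ b, mat A a b * f (ins i a b s) := rfl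

theorem del_ins (i : ℕ) (a b : Bool) (s : ℕ → Bool) : del i (ins i a b s) = s := by
  funext n
  simp only [del, ins]
  split_ifs <;> first | rfl | omega

theorem del_succ_ins (i : ℕ) (a b : Bool) (s : ℕ → Bool) :
    del (i + 1) (ins i a b s) = Function.update s i a := by
  funext n
  simp only [del, ins, Function.update_apply]
  split_ifs <;> first | rfl | omega

theorem del_ins_succ (i : ℕ) (a b : Bool) (s : ℕ → Bool) :
    del i (ins (i + 1) a b s) = Function.update s i b := by
  funext n
  simp only [del, ins, Function.update_apply]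
  split_ifs <;> first | rfl | omega

theorem del_del {i j : ℕ} (h : i ≤ j) (s : ℕ → Bool) :
    del i (del (j + 2) s) = del j (del i s) := by
  funext n
  simp only [del]
  split_ifs <;> first | rfl | omega

theorem ins_ins {i j : ℕ} (h : i ≤ j) (a b c e : Bool) (s : ℕ → Bool) :
    ins (j + 2) c e (ins i a b s) = ins i a b (ins j c e s) := by
  funext n
  simp only [ins]
  split_ifs <;> first | rfl | omega | (congr 1; omega)

theorem del_ins_far {i j : ℕ} (h : i ≤ j) (a b : Bool) (s : ℕ → Bool) :
    del (j + 2) (ins i a b s) = ins i a b (del j s) := by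
  funext n
  simp only [del, ins]
  split_ifs <;> first | rfl | omega | (congr 1; omega)

theorem del_ins_far' {i j : ℕ} (h : i ≤ j) (a b : Bool) (s : ℕ → Bool) :
    del i (ins (j + 2) a b s) = ins j a b (del i s) := by
  funext n
  simp only [del, ins]
  split_ifs <;> first | rfl | omega | (congr 1; omega)

/-- the vertex model -/
noncomputable def rep (A : ℂ) (hA : A ≠ 0) : TLRep (Module.End ℂ V) (-A ^ 2 - A⁻¹ ^ 2) where
  cup := cupOp A
  cap := capOp A
  loop i := by
    ext f s
    rw [Module.End.mul_apply, capOp_apply]
    simp only [cupOp_apply, del_ins, LinearMap.smul_apply, Module.End.one_apply, Pi.smul_apply,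
      smul_eq_mul]
    rw [← mat_sq, Finset.sum_mul]
    refine Finset.sum_congr rfl (fun a _ => ?_)
    rw [Finset.sum_mul]
    refine Finset.sum_congr rfl (fun b _ => ?_)
    simp only [ins]
    simp [mul_assoc]
  zig i := by
    ext f s
    rw [Module.End.mul_apply, capOp_apply]
    simp only [cupOp_apply, del_succ_ins, Module.End.one_apply]
    have h : ∀ a, ∑ b, mat A a b * (mat A (ins i a b s (i + 1)) (ins i a b s (i + 1 + 1)) *
        f (Function.update s i a)) = if a = s i then f s else 0 := by
      intro a
      have e : ∀ b, mat A a b * (mat A (ins i a b s (i + 1)) (ins i a b s (i + 1 + 1)) *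
        f (Function.update s i a)) = (mat A a b * mat A b (s i)) * f (Function.update s i a) := by
        intro b
        have e1 : ins i a b s (i + 1) = b := by simp [ins]
        have e2 : ins i a b s (i + 1 + 1) = s i := by
          simp only [ins]; rw [if_neg (by omega), if_neg (by omega), if_neg (by omega)]; rfl
        rw [e1, e2, mul_assoc]
      simp only [e]
      rw [← Finset.sum_mul, mat_mul hA]
      split_ifs with h
      · subst h; simp
      · simp
    simp only [h]
    simp
  zag i := by
    ext f s
    rw [Module.End.mul_apply, capOp_apply]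
    simp only [cupOp_apply, del_ins_succ, Module.End.one_apply]
    rw [Finset.sum_comm]
    have h : ∀ b, ∑ a, mat A a b * (mat A (ins (i + 1) a b s i) (ins (i + 1) a b s (i + 1)) *
        f (Function.update s i b)) = if s i = b then f s else 0 := by
      intro b
      have e : ∀ a, mat A a b * (mat A (ins (i + 1) a b s i) (ins (i + 1) a b s (i + 1)) *
        f (Function.update s i b)) = (mat A (s i) a * mat A a b) * f (Function.update s i b) := by
        intro a
        have e1 : ins (i + 1) a b s i = s i := by simp [ins]
        have e2 : ins (i + 1) a b s (i + 1) = a := by simp [ins]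
        rw [e1, e2]; ring
      simp only [e]
      rw [← Finset.sum_mul, mat_mul hA]
      split_ifs with h
      · subst h; simp
      · simp
    simp only [h]
    simp
  cup_cup i j h := by
    ext f s
    simp only [Module.End.mul_apply, cupOp_apply]
    have e1 : del (j + 2) s i = s i := by simp [del]; omega
    have e2 : del (j + 2) s (i + 1) = s (i + 1) := by simp [del]; omega
    have e3 : del i s j = s (j + 2) := by simp [del]; omega
    have e4 : del i s (j + 1) = s (j + 2 + 1) := by
      simp only [del]; rw [if_neg (by omega)]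
    rw [e1, e2, e3, e4, del_del h]; ring
  cap_cap i j h := by
    ext f s
    simp only [Module.End.mul_apply, capOp_apply, Finset.mul_sum]
    simp only [ins_ins h]
    have : ∀ F : Bool → Bool → Bool → Bool → ℂ,
        ∑ a, ∑ b, ∑ c, ∑ e, F a b c e = ∑ c, ∑ e, ∑ a, ∑ b, F a b c e := by
      intro F
      simp only [Fintype.sum_bool]; ring
    rw [this]
    refine Finset.sum_congr rfl fun c _ => Finset.sum_congr rfl fun e _ =>
      Finset.sum_congr rfl fun a _ => Finset.sum_congr rfl fun b _ => by ring
  cap_cup i j h := by
    ext f s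
    simp only [Module.End.mul_apply, capOp_apply, cupOp_apply, Finset.mul_sum, del_ins_far h]
    refine Finset.sum_congr rfl fun a _ => Finset.sum_congr rfl fun b _ => ?_
    have e1 : ins i a b s (j + 2) = s j := by
      simp only [ins]; rw [if_neg (by omega), if_neg (by omega), if_neg (by omega)]; rfl
    have e2 : ins i a b s (j + 2 + 1) = s (j + 1) := by
      simp only [ins]; rw [if_neg (by omega), if_neg (by omega), if_neg (by omega)]; rfl
    rw [e1, e2]; ring
  cap_cup' i j h := by
    ext f s
    simp only [Module.End.mul_apply, capOp_apply, cupOp_apply, Finset.mul_sum, del_ins_far' h]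
    refine Finset.sum_congr rfl fun a _ => Finset.sum_congr rfl fun b _ => ?_
    have e1 : ins (j + 2) a b s i = s i := by simp only [ins]; rw [if_pos (by omega)]
    have e2 : ins (j + 2) a b s (i + 1) = s (i + 1) := by simp only [ins]; rw [if_pos (by omega)]
    rw [e1, e2]; ring

end Vertex

end Pool.Agent.Helper24.AEC
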