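import Pool.Agent.Helper24.AEC.Connect
import Pool.Agent.Helper24.AEC.Leaf
import Pool.Agent.Helper24.AEC.Vertex

namespace Pool.Agent.Helper24.AEC

open Polynomial

/-! ### cables of well formed diagrams are well formed -/

theorem exists_split {α : Type} {i : ℕ} {s : List α} (h : i + 2 ≤ s.length) :
    ∃ l1 x y l2, s = l1 ++ x :: y :: l2 ∧ l1.length = i := by
  have h1 : (s.take i).length = i := by simp; omega
  rcases h2 : s.drop i with _ | ⟨x, _ | ⟨y, l⟩⟩
  · have := congrArg List.length h2; simp at this; omega
  · have := congrArg List.length h2; simp at this; omega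
  · exact ⟨s.take i, x, y, l, by rw [← h2, List.take_append_drop], h1⟩

theorem map_removePair {α β : Type} (g : α → β) (j : ℕ) (s : List α) :
    (removePair j s).map g = removePair j (s.map g) := by
  simp [removePair, List.map_take, List.map_drop]

theorem map_swapPair {α β : Type} (g : α → β) (j : ℕ) (s : List α) :
    (swapPair j s).map g = swapPair j (s.map g) := by
  simp [swapPair, List.map_take, List.map_drop, List.map_reverse]

theorem ok_nestedCups {o p n : ℕ} (h : o ≤ n) {D : List (Piece Unit)} (hD : Ok D (n + 2 * p)) :
    Ok (nestedCups o p ++ D) n := by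
  induction p generalizing D with
  | zero => simpa [nestedCups] using hD
  | succ p ih =>
    unfold nestedCups at ih ⊢
    rw [List.range_succ, List.map_append, List.append_assoc]
    exact ih (D := [Piece.cup (o + p) ()] ++ D) ⟨by omega, hD⟩

theorem ok_nestedCaps {o p n : ℕ} (h : o + 2 * p ≤ n) {D : List (Piece Unit)}
    (hD : Ok D (n - 2 * p)) : Ok (nestedCaps o p ++ D) n := by
  induction p generalizing n with
  | zero => simpa [nestedCaps] using hD
  | succ p ih =>
    unfold nestedCaps at ih ⊢
    rw [List.range_succ, List.reverse_append, List.map_append, List.append_assoc]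
    refine ⟨by omega, ?_⟩
    exact ih (n := n - 2) (by omega) (by rw [show n - 2 - 2 * p = n - 2 * (p + 1) by omega]; exact hD)

theorem ok_map {x : ℕ → Piece Unit} (hx : x = .pos ∨ x = .neg) {o q n : ℕ} (h : o + q + 1 ≤ n)
    {D : List (Piece Unit)} (hD : Ok D n) : Ok ((List.range q).map (fun b => x (o + b)) ++ D) n := by
  induction q generalizing D with
  | zero => simpa using hD
  | succ q ih =>
    rw [List.range_succ, List.map_append, List.append_assoc]
    refine ih (by omega) ?_
    rcases hx with rfl | rfl
    · exact ⟨by omega, hD⟩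
    · exact ⟨by omega, hD⟩

theorem ok_block {x : ℕ → Piece Unit} (hx : x = .pos ∨ x = .neg) {o p q n : ℕ}
    (h : o + p + q ≤ n) {D : List (Piece Unit)} (hD : Ok D n) :
    Ok (blockCrossing x o p q ++ D) n := by
  induction p generalizing D with
  | zero => simpa [blockCrossing] using hD
  | succ p ih =>
    unfold blockCrossing at ih ⊢
    rw [List.range_succ, List.reverse_append, List.flatMap_append, List.append_assoc]
    have h1 : List.flatMap (fun a => List.map (fun b => x (o + a + b)) (List.range q))
        [p].reverse = (List.range q).map (fun b => x (o + p + b)) := by simp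
    rw [h1]
    exact ok_map hx (by omega) (ih (by omega) hD)

theorem ok_cable {L : Type} (m : L → ℕ) {D : List (Piece L)} {l : List L} (h : WellFormed D l) :
    Ok (cable m D (l.map m)) (l.map m).sum := by
  induction D generalizing l with
  | nil =>
    have : l = [] := h
    subst this
    simp [cable, Ok]
  | cons p D ih =>
    cases p with
    | cup i c =>
      obtain ⟨h1, h2⟩ := h
      have h3 := ih h2
      rw [map_insertPair] at h3
      have hs : (insertPair i (m c) (l.map m)).sum = (l.map m).sum + 2 * m c := by
        unfold insertPair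
        have : (l.map m).sum = ((l.map m).take i).sum + ((l.map m).drop i).sum := by
          rw [← List.sum_append, List.take_append_drop]
        rw [this]
        simp only [List.sum_append, List.sum_cons]
        ring
      rw [hs] at h3
      refine ok_nestedCups ?_ h3
      have : (l.map m).sum = ((l.map m).take i).sum + ((l.map m).drop i).sum := by
        rw [← List.sum_append, List.take_append_drop]
      omega
    | cap i =>
      obtain ⟨h1, h2, h3⟩ := h
      obtain ⟨l1, x, y, l2, rfl, rfl⟩ := exists_split h1
      have hxy : x = y := by simpa using h2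
      subst hxy
      have h4 := ih h3
      have e1 : removePair l1.length (l1 ++ x :: x :: l2) = l1 ++ l2 := by
        simp [removePair]
      have e2 : removePair l1.length ((l1 ++ x :: x :: l2).map m) = (l1 ++ l2).map m := by
        rw [← map_removePair, e1]
      rw [e1] at h4
      simp only [cable, e2]
      refine ok_nestedCaps ?_ ?_
      · simp
        omega
      · have : (List.map m (l1 ++ x :: x :: l2)).sum -
            2 * (List.map m (l1 ++ x :: x :: l2)).getD l1.length 0 = ((l1 ++ l2).map m).sum := by
          simp
          omega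
        rw [this]
        exact h4
    | pos i =>
      obtain ⟨h1, h2⟩ := h
      obtain ⟨l1, x, y, l2, rfl, rfl⟩ := exists_split h1
      have h4 := ih h2
      have e1 : swapPair l1.length (l1 ++ x :: y :: l2) = l1 ++ y :: x :: l2 := by
        simp [swapPair]
      have e2 : swapPair l1.length ((l1 ++ x :: y :: l2).map m) = (l1 ++ y :: x :: l2).map m := by
        rw [← map_swapPair, e1]
      rw [e1] at h4
      simp only [cable, e2]
      have e3 : ((l1 ++ y :: x :: l2).map m).sum = ((l1 ++ x :: y :: l2).map m).sum := by
        simp; ring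
      rw [e3] at h4
      refine ok_block (Or.inl rfl) ?_ h4
      simp
      omega
    | neg i =>
      obtain ⟨h1, h2⟩ := h
      obtain ⟨l1, x, y, l2, rfl, rfl⟩ := exists_split h1
      have h4 := ih h2
      have e1 : swapPair l1.length (l1 ++ x :: y :: l2) = l1 ++ y :: x :: l2 := by
        simp [swapPair]
      have e2 : swapPair l1.length ((l1 ++ x :: y :: l2).map m) = (l1 ++ y :: x :: l2).map m := by
        rw [← map_swapPair, e1]
      rw [e1] at h4
      simp only [cable, e2]
      have e3 : ((l1 ++ y :: x :: l2).map m).sum = ((l1 ++ x :: y :: l2).map m).sum := by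
        simp; ring
      rw [e3] at h4
      refine ok_block (Or.inr rfl) ?_ h4
      simp
      omega

/-! ### the diagram -/

/-- an unknotted circle with two kinks of the kind `x`, clasped with the strand `j` -/
def leaf (x : ℕ → Piece (Fin 6)) (j : ℕ) (c : Fin 6) : List (Piece (Fin 6)) :=
  [.cup (j + 1) c, .cup (j + 2) c, x (j + 1), .cap (j + 2), .cup (j + 2) c, x (j + 1),
    .cap (j + 2), .pos j, .pos j, .cap (j + 1)]

/-- The plumbing diagram of the Hantzsche–Wendt manifold: the components `0` and `3` have framing
`0` and are clasped with each other, each of them is clasped with two more unknots, of framings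
`2` and `-2`. -/
def hwDiagram : List (Piece (Fin 6)) :=
  [.cup 0 0] ++ leaf .pos 0 1 ++ leaf .neg 0 2 ++ [.cup 1 3] ++ leaf .pos 1 4 ++ leaf .neg 1 5 ++
    [.pos 0, .pos 0, .cap 1, .cap 0]

theorem hw_wellFormed : WellFormed hwDiagram [] := by
  simp [hwDiagram, leaf, WellFormed, insertPair, removePair, swapPair]

theorem hw_isLinkDiagram : IsLinkDiagram hwDiagram := by
  refine ⟨hw_wellFormed, fun c => ?_⟩
  fin_cases c <;> decide

namespace TLRep

variable {R : Type*} [Ring R] [Algebra ℂ R] {d : ℂ} (T : TLRep R d)

/-- the operator of a leaf -/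
noncomputable def Lf (A B : ℂ) (q p : ℕ) : R :=
  (T.shift q).N p * (T.F A q p * ((T.shift q).K B p * (T.shift q).K B p)) * (T.shift q).C p

end TLRep

variable {R : Type*} [Ring R] [Algebra ℂ R] {d : ℂ} (T : TLRep R d)

theorem rho_hw (A : ℂ) (m : Fin 6 → ℕ) : rho T A (cable m hwDiagram []) =
    T.N (m 0) * ((T.shift (m 0)).N (m 3) * T.F A (m 0) (m 3) *
      (T.shift (m 0)).Lf A A⁻¹ (m 3) (m 5) * (T.shift (m 0)).Lf A A (m 3) (m 4) *
      (T.shift (m 0)).C (m 3)) * T.Lf A A⁻¹ (m 0) (m 2) * T.Lf A A (m 0) (m 1) * T.C (m 0) := by
  simp [hwDiagram, leaf, cable, insertPair, removePair, swapPair, rho_append, rho_nestedCups,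
    rho_nestedCaps, rho_block_pos, rho_block_neg, TLRep.Lf, TLRep.K, TLRep.F, TLRep.shift_shift,
    mul_assoc, Nat.add_assoc]

end Pool.Agent.Helper24.AEC
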