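import Pool.Agent.Helper24.AEC.HW

namespace Pool.Agent.Helper24.AEC

open Polynomial

section alg

variable {R : Type*} [Ring R] [Algebra ℂ R] {d : ℂ} (T : TLRep R d)
variable {k : ℕ} (hk : ∀ n ≤ k, del d n ≠ 0) {A : ℂ} (hA : A ≠ 0) (hd : d = -A ^ 2 - (A⁻¹) ^ 2)
include hk hA hd

theorem sum_Lf {B : ℂ} (hB : B ≠ 0) (hBd : d = -B ^ 2 - (B⁻¹) ^ 2) (q : ℕ) {j : ℕ} (hj : j ≤ k) :
    ∑ p : Fin (k + 1), (TLRep.Sp j).coeff p • T.Lf A B q p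
      = (TLRep.tw B j ^ 2) • aeval (T.rg A q) (TLRep.Sp j) := by
  rw [← T.sum_leaf hk hA hd hB hBd q hj, Finset.sum_range]
  rfl

theorem hw_sum (hd' : d = -A⁻¹ ^ 2 - (A⁻¹⁻¹) ^ 2) (v a b w c e : Fin (k + 1)) :
    ∑ a0 : Fin (k + 1), (TLRep.Sp v).coeff a0 • (T.N a0 * (∑ a3 : Fin (k + 1),
      (TLRep.Sp w).coeff a3 • ((T.shift a0).N a3 * T.F A a0 a3 *
      (∑ a5 : Fin (k + 1), (TLRep.Sp e).coeff a5 • (T.shift a0).Lf A A⁻¹ a3 a5) *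
      (∑ a4 : Fin (k + 1), (TLRep.Sp c).coeff a4 • (T.shift a0).Lf A A a3 a4) *
      (T.shift a0).C a3)) * (∑ a2 : Fin (k + 1), (TLRep.Sp b).coeff a2 • T.Lf A A⁻¹ a0 a2) *
      (∑ a1 : Fin (k + 1), (TLRep.Sp a).coeff a1 • T.Lf A A a0 a1) * T.C a0) =
    (del d v * (TLRep.Sp w).eval (TLRep.lam A v) *
      (TLRep.tw A a ^ 2 * (TLRep.Sp a).eval (TLRep.lam A v)) *
      (TLRep.tw A⁻¹ b ^ 2 * (TLRep.Sp b).eval (TLRep.lam A v)) *
      (TLRep.tw A c ^ 2 * (TLRep.Sp c).eval (TLRep.lam A w)) *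
      (TLRep.tw A⁻¹ e ^ 2 * (TLRep.Sp e).eval (TLRep.lam A w))) • (1 : R) := by
  have hA' : A⁻¹ ≠ 0 := inv_ne_zero hA
  have hv : (v : ℕ) ≤ k := by omega
  have ha : (a : ℕ) ≤ k := by omega
  have hb : (b : ℕ) ≤ k := by omega
  have hw : (w : ℕ) ≤ k := by omega
  have hc : (c : ℕ) ≤ k := by omega
  have he : (e : ℕ) ≤ k := by omega
  have key : ∀ a0 : Fin (k + 1), (∑ a3 : Fin (k + 1),
      (TLRep.Sp w).coeff a3 • ((T.shift a0).N a3 * T.F A a0 a3 *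
      (∑ a5 : Fin (k + 1), (TLRep.Sp e).coeff a5 • (T.shift a0).Lf A A⁻¹ a3 a5) *
      (∑ a4 : Fin (k + 1), (TLRep.Sp c).coeff a4 • (T.shift a0).Lf A A a3 a4) *
      (T.shift a0).C a3)) = (TLRep.tw A⁻¹ e ^ 2 * TLRep.tw A c ^ 2 *
        (TLRep.Sp e * TLRep.Sp c).eval (TLRep.lam A w)) •
        aeval (T.rg A a0) (TLRep.Sp w) := by
    intro a0
    rw [mul_smul, ← T.sum_chain hk hA hd a0 hw, Finset.sum_range, Finset.smul_sum]
    refine Finset.sum_congr rfl fun a3 _ => ?_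
    rw [sum_Lf (T.shift a0) hk hA hd hA' hd' a3 he, sum_Lf (T.shift a0) hk hA hd hA hd a3 hc,
      map_mul]
    simp only [smul_mul_assoc, mul_smul_comm, smul_smul, mul_assoc]
    congr 1; ring
  simp only [key]
  have step : ∀ a0 : Fin (k + 1), (TLRep.Sp v).coeff a0 • (T.N a0 * ((TLRep.tw A⁻¹ e ^ 2 *
      TLRep.tw A c ^ 2 * (TLRep.Sp e * TLRep.Sp c).eval (TLRep.lam A w)) •
        aeval (T.rg A a0) (TLRep.Sp w)) *
        (∑ a2 : Fin (k + 1), (TLRep.Sp b).coeff a2 • T.Lf A A⁻¹ a0 a2) *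
      (∑ a1 : Fin (k + 1), (TLRep.Sp a).coeff a1 • T.Lf A A a0 a1) * T.C a0) =
      (TLRep.tw A⁻¹ e ^ 2 * TLRep.tw A c ^ 2 * TLRep.tw A⁻¹ b ^ 2 * TLRep.tw A a ^ 2 *
        (TLRep.Sp e * TLRep.Sp c).eval (TLRep.lam A w)) • ((TLRep.Sp v).coeff a0 •
        (T.N a0 * aeval (T.rg A a0) (TLRep.Sp w * TLRep.Sp b * TLRep.Sp a) * T.C a0)) := by
    intro a0
    rw [sum_Lf T hk hA hd hA' hd' a0 hb, sum_Lf T hk hA hd hA hd a0 ha, map_mul, map_mul]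
    simp only [smul_mul_assoc, mul_smul_comm, smul_smul, mul_assoc]
    congr 1; ring
  simp only [step]
  rw [← Finset.smul_sum, ← Finset.sum_range (fun a0 => (TLRep.Sp v).coeff a0 •
        (T.N a0 * aeval (T.rg A a0) (TLRep.Sp w * TLRep.Sp b * TLRep.Sp a) * T.C a0)),
    T.sum_last hk hA hd hv, smul_smul]
  congr 1
  simp only [eval_mul]
  ring

end alg

/-- the coloured bracket of the plumbing diagram -/
theorem hw_colouredBracket {k : ℕ} {A : ℂ} (hA : A ≠ 0)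
    (hk : ∀ n ≤ k, del (-A ^ 2 - A⁻¹ ^ 2) n ≠ 0) (col : Fin 6 → Fin (k + 1)) :
    colouredBracket A hwDiagram k col =
      del (-A ^ 2 - A⁻¹ ^ 2) (col 0) * (TLRep.Sp (col 3)).eval (TLRep.lam A (col 0)) *
      (TLRep.tw A (col 1) ^ 2 * (TLRep.Sp (col 1)).eval (TLRep.lam A (col 0))) *
      (TLRep.tw A⁻¹ (col 2) ^ 2 * (TLRep.Sp (col 2)).eval (TLRep.lam A (col 0))) *
      (TLRep.tw A (col 4) ^ 2 * (TLRep.Sp (col 4)).eval (TLRep.lam A (col 3))) *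
      (TLRep.tw A⁻¹ (col 5) ^ 2 * (TLRep.Sp (col 5)).eval (TLRep.lam A (col 3))) := by
  set T := Vertex.rep A hA with hT
  have hinj : Function.Injective (algebraMap ℂ (Module.End ℂ Vertex.V)) :=
    (algebraMap ℂ (Module.End ℂ Vertex.V)).injective
  apply hinj
  rw [Algebra.algebraMap_eq_smul_one, Algebra.algebraMap_eq_smul_one]
  rw [← hw_sum T hk hA rfl (by rw [inv_inv]; ring) (col 0) (col 1) (col 2) (col 3) (col 4) (col 5)]
  rw [← six_sum]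
  refine Eq.trans ?_ (sum_vec_six (fun m : Fin 6 → Fin (k + 1) =>
    ((TLRep.Sp (col 0)).coeff (m 0) * (TLRep.Sp (col 1)).coeff (m 1) *
      (TLRep.Sp (col 2)).coeff (m 2) * (TLRep.Sp (col 3)).coeff (m 3) *
      (TLRep.Sp (col 4)).coeff (m 4) * (TLRep.Sp (col 5)).coeff (m 5)) •
      (T.N (m 0) * ((T.shift (m 0)).N (m 3) * T.F A (m 0) (m 3) *
      (T.shift (m 0)).Lf A A⁻¹ (m 3) (m 5) * (T.shift (m 0)).Lf A A (m 3) (m 4) *
      (T.shift (m 0)).C (m 3)) * T.Lf A A⁻¹ (m 0) (m 2) * T.Lf A A (m 0) (m 1) * T.C (m 0))))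
  unfold colouredBracket
  rw [Finset.sum_smul]
  refine Finset.sum_congr rfl fun m _ => ?_
  have h0 : Ok (cable (fun c => (m c : ℕ)) hwDiagram []) 0 := by
    have := ok_cable (fun c => (m c : ℕ)) hw_wellFormed
    simpa using this
  rw [mul_smul, ← rho_eq_bracket (T := T) hA rfl h0, rho_hw, Fin.prod_univ_six]
  rfl

end Pool.Agent.Helper24.AEC
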