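import Pool.Agent.Helper24.AEC.Kink

namespace Pool.Agent.Helper24.AEC

open Polynomial

/-- `S_n(d)` -/
noncomputable def del (d : ℂ) (n : ℕ) : ℂ := (Chebyshev.S ℂ n).eval d

theorem del_zero (d : ℂ) : del d 0 = 1 := by simp [del]
theorem del_one (d : ℂ) : del d 1 = d := by simp [del]
theorem S_succ_succ (n : ℕ) : Chebyshev.S ℂ ((n + 2 : ℕ) : ℤ) =
    X * Chebyshev.S ℂ ((n + 1 : ℕ) : ℤ) - Chebyshev.S ℂ (n : ℤ) := by
  have := Chebyshev.S_add_two ℂ (n : ℤ)
  push_cast
  exact this

theorem del_succ_succ (d : ℂ) (n : ℕ) : del d (n + 2) = d * del d (n + 1) - del d n := by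
  unfold del
  rw [S_succ_succ]; simp

theorem natDegree_S_le (n : ℕ) : (Chebyshev.S ℂ (n : ℤ)).natDegree ≤ n := by
  induction n using Nat.twoStepInduction with
  | zero => simp
  | one => simp
  | more n h1 h2 =>
    rw [S_succ_succ]
    refine (natDegree_sub_le _ _).trans (max_le ?_ (by omega))
    refine (natDegree_mul_le).trans ?_
    rw [natDegree_X]; omega

namespace TLRep

variable {R : Type*} [Ring R] [Algebra ℂ R] {d : ℂ} (T : TLRep R d)

/-- the Jones–Wenzl idempotents -/
noncomputable def f : ℕ → R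
  | 0 => 1
  | 1 => 1
  | n + 2 => f (n + 1) - (del d n / del d (n + 1)) • (f (n + 1) * T.U n * f (n + 1))

theorem f_zero : T.f 0 = 1 := by rw [f]
theorem f_one : T.f 1 = 1 := by rw [f]
theorem f_succ_succ (n : ℕ) : T.f (n + 2) =
    T.f (n + 1) - (del d n / del d (n + 1)) • (T.f (n + 1) * T.U n * T.f (n + 1)) := by rw [f]

/-- the algebra generated by the Temperley–Lieb generators on `n` strands -/
noncomputable def E (n : ℕ) : Subalgebra ℂ R := Algebra.adjoin ℂ {x | ∃ j, j + 2 ≤ n ∧ x = T.U j}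

theorem U_mem_E {n j : ℕ} (h : j + 2 ≤ n) : T.U j ∈ T.E n := Algebra.subset_adjoin ⟨j, h, rfl⟩

theorem E_mono {n m : ℕ} (h : n ≤ m) : T.E n ≤ T.E m := by
  apply Algebra.adjoin_mono
  rintro x ⟨j, hj, rfl⟩
  exact ⟨j, by omega, rfl⟩

theorem f_mem_E (n : ℕ) : T.f n ∈ T.E n := by
  induction n using Nat.twoStepInduction with
  | zero => rw [f_zero]; exact one_mem _
  | one => rw [f_one]; exact one_mem _
  | more n _ ih =>
    rw [f_succ_succ]
    have h1 := T.E_mono (n := n + 1) (m := n + 2) (by omega) ih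
    exact sub_mem h1 (Subalgebra.smul_mem _ (mul_mem (mul_mem h1 (T.U_mem_E le_rfl)) h1) _)

variable {T}

theorem typ_of_mem_E {n : ℕ} {x : R} (h : x ∈ T.E n) : T.Typ x n n := by
  unfold E at h
  induction h using Algebra.adjoin_induction with
  | mem x hx => obtain ⟨j, hj, rfl⟩ := hx; exact T.typ_U hj
  | algebraMap r => rw [Algebra.algebraMap_eq_smul_one]; exact (Typ.one n).smul r
  | add x y _ _ hx hy => exact hx.add hy
  | mul x y _ _ hx hy => exact hx.mul hy

variable (T)

theorem typ_f (n : ℕ) : T.Typ (T.f n) n n := typ_of_mem_E (T.f_mem_E n)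

/-- idempotents are absorbed by killed elements -/
theorem f_mul_of_kill {n : ℕ} {g : R} (h : ∀ j, j + 2 ≤ n → T.U j * g = 0) : T.f n * g = g := by
  induction n using Nat.twoStepInduction with
  | zero => rw [f_zero, one_mul]
  | one => rw [f_one, one_mul]
  | more n _ ih =>
    have h1 := ih (fun j hj => h j (by omega))
    rw [f_succ_succ, sub_mul, smul_mul_assoc, mul_assoc, h1, mul_assoc, h n le_rfl, mul_zero,
      smul_zero, sub_zero]

theorem mul_f_of_kill {n : ℕ} {g : R} (h : ∀ j, j + 2 ≤ n → g * T.U j = 0) : g * T.f n = g := by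
  induction n using Nat.twoStepInduction with
  | zero => rw [f_zero, mul_one]
  | one => rw [f_one, mul_one]
  | more n _ ih =>
    have h1 := ih (fun j hj => h j (by omega))
    rw [f_succ_succ, mul_sub, mul_smul_comm, ← mul_assoc, ← mul_assoc, h1, h n le_rfl, zero_mul,
      smul_zero, sub_zero]

/-- the statement that `f n` kills the generators -/
def Kills (n : ℕ) : Prop := ∀ j, j + 2 ≤ n → T.U j * T.f n = 0 ∧ T.f n * T.U j = 0

variable {T}

theorem Kills.idem {n : ℕ} (h : T.Kills n) : T.f n * T.f n = T.f n :=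
  T.f_mul_of_kill (fun j hj => (h j hj).1)

theorem Kills.ptrace {n : ℕ} (h : T.Kills n) (hn : del d n ≠ 0) :
    T.cap n * T.f (n + 1) * T.cup n = (del d (n + 1) / del d n) • T.f n := by
  rcases n with _ | m
  · rw [f_one, f_zero, mul_one, T.loop, del_zero, del_one, div_one]
  · have h1 : T.cap (m + 1) * T.f (m + 1) = T.f (m + 1) * T.cap (m + 1) := (T.typ_f (m + 1)).2 0
    have h2 : T.cup (m + 1) * T.f (m + 1) = T.f (m + 1) * T.cup (m + 1) := (T.typ_f (m + 1)).1 0
    have h3 : T.cap (m + 1) * T.U m * T.cup (m + 1) = 1 := by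
      rw [T.cap_succ_U, T.zig]
    have e1 : T.cap (m + 1) * T.f (m + 1) * T.cup (m + 1) = d • T.f (m + 1) := by
      rw [h1, mul_assoc, T.loop, mul_smul_comm, mul_one]
    have e2 : T.cap (m + 1) * (T.f (m + 1) * T.U m * T.f (m + 1)) * T.cup (m + 1) = T.f (m + 1) := by
      calc _ = (T.cap (m + 1) * T.f (m + 1)) * T.U m * (T.f (m + 1) * T.cup (m + 1)) := by
            simp only [mul_assoc]
        _ = T.f (m + 1) * (T.cap (m + 1) * T.U m * T.cup (m + 1)) * T.f (m + 1) := by
            rw [h1, ← h2]; simp only [mul_assoc]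
        _ = _ := by rw [h3, mul_one, h.idem]
    rw [f_succ_succ, mul_sub, sub_mul, mul_smul_comm, smul_mul_assoc, e1, e2, ← sub_smul,
      del_succ_succ]
    congr 1
    field_simp

theorem Kills.step {n : ℕ} (h : T.Kills n) (h' : T.Kills (n + 1)) (hn : del d n ≠ 0)
    (hn' : del d (n + 1) ≠ 0) : T.Kills (n + 2) := by
  have hid := h'.idem
  have hpt := h.ptrace hn
  have h1 : T.cap n * T.f n = T.f n * T.cap n := (T.typ_f n).2 0
  have h2 : T.cup n * T.f n = T.f n * T.cup n := (T.typ_f n).1 0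
  have a1 : T.f n * T.f (n + 1) = T.f (n + 1) :=
    T.f_mul_of_kill (fun j hj => (h' j (by omega)).1)
  have a2 : T.f (n + 1) * T.f n = T.f (n + 1) :=
    T.mul_f_of_kill (fun j hj => (h' j (by omega)).2)
  have key : T.U n * T.f (n + 1) * T.U n = (del d (n + 1) / del d n) • (T.U n * T.f n) := by
    calc T.U n * T.f (n + 1) * T.U n = T.cup n * (T.cap n * T.f (n + 1) * T.cup n) * T.cap n := by
          simp only [TLRep.U, mul_assoc]
      _ = _ := by
          rw [hpt, mul_smul_comm, smul_mul_assoc, mul_assoc, ← h1]; simp only [TLRep.U, mul_assoc]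
  have key' : T.U n * T.f n = T.f n * T.U n := by
    simp only [TLRep.U, mul_assoc]; rw [h1, ← mul_assoc, h2, mul_assoc]
  have hμ : del d n / del d (n + 1) * (del d (n + 1) / del d n) = 1 := by field_simp
  intro j hj
  rcases Nat.lt_or_ge (j + 2) (n + 2) with hlt | hge
  · have hk := h' j (by omega)
    constructor
    · rw [f_succ_succ, mul_sub, mul_smul_comm, ← mul_assoc, ← mul_assoc, hk.1, zero_mul, zero_mul,
        smul_zero, sub_zero]
    · rw [f_succ_succ, sub_mul, smul_mul_assoc, mul_assoc, hk.2, mul_zero,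
        smul_zero, sub_zero]
  · obtain rfl : j = n := by omega
    constructor
    · rw [f_succ_succ, mul_sub, mul_smul_comm, ← mul_assoc, ← mul_assoc, key, smul_mul_assoc,
        mul_assoc, a1, smul_smul, hμ, one_smul, sub_self]
    · rw [f_succ_succ, sub_mul, smul_mul_assoc, mul_assoc, mul_assoc, ← mul_assoc (T.U j), key, 
        mul_smul_comm, key', ← mul_assoc, a2, smul_smul, hμ, one_smul, sub_self]

variable (T)

theorem kills {k : ℕ} (hk : ∀ n ≤ k, del d n ≠ 0) {n : ℕ} (hn : n ≤ k + 1) : T.Kills n := by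
  induction n using Nat.twoStepInduction with
  | zero => intro j hj; omega
  | one => intro j hj; omega
  | more n ih1 ih2 =>
    exact (ih1 (by omega)).step (ih2 (by omega)) (hk _ (by omega)) (hk _ (by omega))

/-- the closure of `Y p * x` -/
def Phi (Y : ℕ → R) (p : ℕ) (x : R) : R := T.N p * Y p * x * T.C p

theorem Phi_smul (Y : ℕ → R) (p : ℕ) (a : ℂ) (x : R) : T.Phi Y p (a • x) = a • T.Phi Y p x := by
  simp [Phi]

theorem Phi_sub (Y : ℕ → R) (p : ℕ) (x y : R) :
    T.Phi Y p (x - y) = T.Phi Y p x - T.Phi Y p y := by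
  simp [Phi, mul_sub, sub_mul]

theorem Phi_add (Y : ℕ → R) (p : ℕ) (x y : R) :
    T.Phi Y p (x + y) = T.Phi Y p x + T.Phi Y p y := by
  simp [Phi, mul_add, add_mul]

variable {T}

section trace

variable {Y : ℕ → R} (hY : T.Natl Y)
include hY

theorem Natl.Phi_U_left (j k : ℕ) {x : R} (hx : T.Typ x (j + k + 2) (j + k + 2)) :
    T.Phi Y (j + k + 2) (T.U j * x) = T.Phi Y (j + k) (T.cap j * x * T.cup j) := by
  have e1 := hY.cup (j + k) j (by omega)
  have e2 := T.N_cup_left j k
  have e3 : T.cap (j + 2 * k) * Y (j + k) = Y (j + k) * T.cap (j + 2 * k) := by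
    have := (hY.typ (j + k)).2 k
    rw [show j + k + k = j + 2 * k by omega] at this
    exact this
  have e4 := T.cap_cap j (j + 2 * k) (by omega)
  have e5 : T.cap (j + 2 * k + 2) * x = x * T.cap (j + 2 * k + 2) := by
    have := hx.2 k
    rw [show j + k + 2 + k = j + 2 * k + 2 by omega] at this
    exact this
  have e6 := T.cap_C_right j k
  calc T.Phi Y (j + k + 2) (T.U j * x)
      = T.N (j + k + 2) * (Y (j + k + 2) * T.cup j) * T.cap j * x * T.C (j + k + 2) := by
        simp only [Phi, TLRep.U, mul_assoc]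
    _ = (T.N (j + k + 2) * T.cup j) * Y (j + k) * T.cap j * x * T.C (j + k + 2) := by
        rw [e1]; simp only [mul_assoc]
    _ = T.N (j + k) * (T.cap (j + 2 * k) * Y (j + k)) * T.cap j * x * T.C (j + k + 2) := by
        rw [e2]; simp only [mul_assoc]
    _ = T.N (j + k) * Y (j + k) * (T.cap (j + 2 * k) * T.cap j) * x * T.C (j + k + 2) := by
        rw [e3]; simp only [mul_assoc]
    _ = T.N (j + k) * Y (j + k) * T.cap j * (T.cap (j + 2 * k + 2) * x) * T.C (j + k + 2) := by
        rw [← e4]; simp only [mul_assoc]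
    _ = T.N (j + k) * Y (j + k) * T.cap j * x * (T.cap (j + 2 * k + 2) * T.C (j + k + 2)) := by
        rw [e5]; simp only [mul_assoc]
    _ = _ := by rw [e6]; simp only [Phi, mul_assoc]

theorem Natl.Phi_U_right (j k : ℕ) {x : R} (hx : T.Typ x (j + k + 2) (j + k + 2)) :
    T.Phi Y (j + k + 2) (x * T.U j) = T.Phi Y (j + k) (T.cap j * x * T.cup j) := by
  have e1 := hY.cap (j + k) j (by omega)
  have e2 := T.N_cup_right j k
  have e3 : T.cup (j + 2 * k + 2) * Y (j + k + 2) = Y (j + k + 2) * T.cup (j + 2 * k + 2) := by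
    have := (hY.typ (j + k + 2)).1 k
    rw [show j + k + 2 + k = j + 2 * k + 2 by omega] at this
    exact this
  have e4 := T.cup_cup j (j + 2 * k) (by omega)
  have e5 : T.cup (j + 2 * k + 2) * x = x * T.cup (j + 2 * k + 2) := by
    have := hx.1 k
    rw [show j + k + 2 + k = j + 2 * k + 2 by omega] at this
    exact this
  have e6 := T.cap_C_left j k
  calc T.Phi Y (j + k + 2) (x * T.U j)
      = T.N (j + k + 2) * Y (j + k + 2) * x * T.cup j * (T.cap j * T.C (j + k + 2)) := by
        simp only [Phi, TLRep.U, mul_assoc]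
    _ = T.N (j + k + 2) * Y (j + k + 2) * x * (T.cup j * T.cup (j + 2 * k)) * T.C (j + k) := by
        rw [e6]; simp only [mul_assoc]
    _ = T.N (j + k + 2) * Y (j + k + 2) * (x * T.cup (j + 2 * k + 2)) * T.cup j * T.C (j + k) := by
        rw [← e4]; simp only [mul_assoc]
    _ = T.N (j + k + 2) * (Y (j + k + 2) * T.cup (j + 2 * k + 2)) * x * T.cup j * T.C (j + k) := by
        rw [← e5]; simp only [mul_assoc]
    _ = (T.N (j + k + 2) * T.cup (j + 2 * k + 2)) * Y (j + k + 2) * x * T.cup j * T.C (j + k) := by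
        rw [← e3]; simp only [mul_assoc]
    _ = T.N (j + k) * (T.cap j * Y (j + k + 2)) * x * T.cup j * T.C (j + k) := by
        rw [e2]; simp only [mul_assoc]
    _ = _ := by rw [e1]; simp only [Phi, mul_assoc]

theorem Natl.Phi_comm {p : ℕ} {x y : R} (hx : x ∈ T.E p) (hy : y ∈ T.E p) :
    T.Phi Y p (x * y) = T.Phi Y p (y * x) := by
  unfold E at hx
  induction hx using Algebra.adjoin_induction generalizing y with
  | mem x hx =>
    obtain ⟨j, hj, rfl⟩ := hx
    obtain ⟨k, rfl⟩ := Nat.exists_eq_add_of_le hj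
    have ht := (typ_of_mem_E hy).cast (m' := j + k + 2) (n' := j + k + 2) (by omega) (by omega)
    rw [show j + 2 + k = j + k + 2 by omega, hY.Phi_U_left j k ht, hY.Phi_U_right j k ht]
  | algebraMap r => rw [Algebra.algebraMap_eq_smul_one]; simp
  | add x z hx hz ihx ihz => rw [add_mul, mul_add, Phi_add, Phi_add, ihx hy, ihz hy]
  | mul x z hx hz ihx ihz =>
    rw [mul_assoc, ihx (mul_mem hz hy), mul_assoc, ihz (mul_mem hy hx), mul_assoc]

theorem Natl.Phi_f {k : ℕ} (hk : ∀ n ≤ k, del d n ≠ 0) {i p : ℕ} (hi : i + 1 ≤ k) (hp : i ≤ p) :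
    T.Phi Y (p + 2) (T.f (i + 2)) = T.Phi Y (p + 2) (T.f (i + 1)) - T.Phi Y p (T.f i) := by
  obtain ⟨l, rfl⟩ := Nat.exists_eq_add_of_le hp
  have h1 : T.f (i + 1) ∈ T.E (i + l + 2) := T.E_mono (by omega) (T.f_mem_E (i + 1))
  have h2 : T.U i ∈ T.E (i + l + 2) := T.U_mem_E (by omega)
  have hK : T.Kills (i + 1) := T.kills hk (by omega)
  have hK' : T.Kills i := T.kills hk (by omega)
  have e : T.Phi Y (i + l + 2) (T.f (i + 1) * T.U i * T.f (i + 1)) =
      (del d (i + 1) / del d i) • T.Phi Y (i + l) (T.f i) := by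
    rw [mul_assoc, hY.Phi_comm h1 (mul_mem h2 h1), mul_assoc, hK.idem,
      hY.Phi_U_left i l (typ_of_mem_E h1), hK'.ptrace (hk _ (by omega)), Phi_smul]
  have hd1 : del d i ≠ 0 := hk _ (by omega)
  have hd2 : del d (i + 1) ≠ 0 := hk _ (by omega)
  rw [f_succ_succ, Phi_sub, Phi_smul, e, smul_smul,
    show del d i / del d (i + 1) * (del d (i + 1) / del d i) = 1 by field_simp, one_smul]

omit hY in
/-- the linear functional `X ^ q ↦ Phi (q + m) 1` -/
noncomputable def Lam (T : TLRep R d) (Y : ℕ → R) (m : ℕ) : ℂ[X] →ₗ[ℂ] R :=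
  (Polynomial.basisMonomials ℂ).constr ℂ (fun q => T.Phi Y (q + m) 1)

omit hY in
theorem Lam_monomial (Y : ℕ → R) (m q : ℕ) (a : ℂ) :
    Lam T Y m (monomial q a) = a • T.Phi Y (q + m) 1 := by
  have h : (monomial q a : ℂ[X]) = a • (Polynomial.basisMonomials ℂ q) := by
    simp [smul_monomial]
  rw [h, map_smul, Lam, Module.Basis.constr_basis]

omit hY in
theorem Lam_X_mul (Y : ℕ → R) (m : ℕ) (P : ℂ[X]) : Lam T Y m (Polynomial.X * P) = Lam T Y (m + 1) P := by
  induction P using Polynomial.induction_on' with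
  | add p q hp hq => rw [mul_add, map_add, map_add, hp, hq]
  | monomial n a =>
    rw [X_mul_monomial, Lam_monomial, Lam_monomial]
    congr 2
    omega

omit hY in
theorem Lam_eq_sum (Y : ℕ → R) (P : ℂ[X]) {n : ℕ} (hn : P.natDegree < n) :
    Lam T Y 0 P = ∑ q ∈ Finset.range n, P.coeff q • (T.N q * Y q * T.C q) := by
  conv_lhs => rw [P.as_sum_range' n hn]
  rw [map_sum]
  refine Finset.sum_congr rfl (fun q _ => ?_)
  rw [Lam_monomial, Phi, mul_one, add_zero]

theorem Natl.Phi_f_eq_Lam {k : ℕ} (hk : ∀ n ≤ k, del d n ≠ 0) {i : ℕ} (hi : i ≤ k) (m : ℕ) :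
    T.Phi Y (i + m) (T.f i) = Lam T Y m (Chebyshev.S ℂ (i : ℤ)) := by
  induction i using Nat.twoStepInduction generalizing m with
  | zero =>
    have : (Chebyshev.S ℂ ((0 : ℕ) : ℤ)) = monomial 0 1 := by simp
    rw [this, Lam_monomial, f_zero, one_smul]
  | one =>
    have : (Chebyshev.S ℂ ((1 : ℕ) : ℤ)) = monomial 1 1 := by
      simp [← Polynomial.monomial_one_one_eq_X]
    rw [this, Lam_monomial, f_one, one_smul]
  | more i ih1 ih2 =>
    rw [S_succ_succ, map_sub, Lam_X_mul, ← ih2 (by omega), ← ih1 (by omega)]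
    have := hY.Phi_f hk (i := i) (p := i + m) (by omega) (by omega)
    rw [show i + 2 + m = i + m + 2 by omega, this, show i + 1 + (m + 1) = i + m + 2 by omega]

/-- colouring by the Chebyshev polynomial is the same as inserting the Jones–Wenzl idempotent -/
theorem Natl.sum_S {k : ℕ} (hk : ∀ n ≤ k, del d n ≠ 0) {i : ℕ} (hi : i ≤ k) :
    ∑ q ∈ Finset.range (k + 1), (Chebyshev.S ℂ (i : ℤ)).coeff q • (T.N q * Y q * T.C q) =
      T.N i * Y i * T.f i * T.C i := by
  rw [← Lam_eq_sum Y _ (lt_of_le_of_lt (natDegree_S_le i) (by omega)),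
    ← hY.Phi_f_eq_Lam hk hi 0]
  rfl

end trace

end TLRep

end Pool.Agent.Helper24.AEC
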