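import Pool.Agent.Helper24.AEC.Ring

namespace Pool.Agent.Helper24.AEC

namespace TLRep

variable {R : Type*} [Ring R] [Algebra ℂ R] {d : ℂ} (T : TLRep R d) (A : ℂ)

/-- a family of elements, one for each number of strands, compatible with cups and caps -/
structure Natl (Y : ℕ → R) : Prop where
  cup : ∀ p j, j ≤ p → Y (p + 2) * T.cup j = T.cup j * Y p
  cap : ∀ p j, j ≤ p → T.cap j * Y (p + 2) = Y p * T.cap j
  typ : ∀ p, T.Typ (Y p) p p

variable {T}

theorem Natl.mul {Y Y' : ℕ → R} (h : T.Natl Y) (h' : T.Natl Y') : T.Natl (fun p => Y p * Y' p) where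
  cup p j hj := by rw [mul_assoc, h'.cup p j hj, ← mul_assoc, h.cup p j hj, mul_assoc]
  cap p j hj := by rw [← mul_assoc, h.cap p j hj, mul_assoc, h'.cap p j hj, mul_assoc]
  typ p := (h.typ p).mul (h'.typ p)

theorem Natl.one : T.Natl (fun _ => (1 : R)) where
  cup p j _ := by rw [one_mul, mul_one]
  cap p j _ := by rw [one_mul, mul_one]
  typ p := Typ.one p

theorem Natl.add {Y Y' : ℕ → R} (h : T.Natl Y) (h' : T.Natl Y') : T.Natl (fun p => Y p + Y' p) where
  cup p j hj := by rw [add_mul, mul_add, h.cup p j hj, h'.cup p j hj]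
  cap p j hj := by rw [add_mul, mul_add, h.cap p j hj, h'.cap p j hj]
  typ p := (h.typ p).add (h'.typ p)

theorem Natl.smul {Y : ℕ → R} (h : T.Natl Y) (a : ℂ) : T.Natl (fun p => a • Y p) where
  cup p j hj := by rw [smul_mul_assoc, mul_smul_comm, h.cup p j hj]
  cap p j hj := by rw [smul_mul_assoc, mul_smul_comm, h.cap p j hj]
  typ p := (h.typ p).smul a

theorem Natl.aeval {Y : ℕ → R} (h : T.Natl Y) (P : Polynomial ℂ) :
    T.Natl (fun p => Polynomial.aeval (Y p) P) := by
  induction P using Polynomial.induction_on with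
  | C a => simpa [Algebra.algebraMap_eq_smul_one] using (Natl.one (T := T)).smul a
  | add p q hp hq => simpa using hp.add hq
  | monomial n a ih =>
    have := ih.mul h
    simpa [pow_succ, mul_assoc] using this

variable (T)

/-- full clasp of a cable of `p` strands with the `q` strands on its left -/
noncomputable def F (q p : ℕ) : R := T.X A p q * T.X A q p

/-- the kink on a cable of `p` strands -/
noncomputable def K (p : ℕ) : R := (T.shift p).N p * T.X A p p * (T.shift p).C p

theorem K_zero : T.K A 0 = 1 := by simp [K, N_zero, C_zero, X_zero_left]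

theorem typ_K (p : ℕ) : T.Typ (T.K A p) p p := by
  unfold K
  have h1 : T.Typ ((T.shift p).C p) p (p + 2 * p) := by
    have := (T.shift p).typ_C p 0
    rw [typ_shift] at this
    exact this.cast (by omega) (by omega)
  have h2 : T.Typ ((T.shift p).N p) (p + 2 * p) p := by
    have := (T.shift p).typ_N p 0
    rw [typ_shift] at this
    exact this.cast (by omega) (by omega)
  exact (h2.mul (T.typ_X A (by omega))).mul h1

section slide

variable {A} (hA : A ≠ 0) (hd : d = -A ^ 2 - (A⁻¹) ^ 2)
include hA hd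

theorem natl_rg : T.Natl (T.rg A) where
  cup _ _ h := T.rg_cup hA hd h
  cap _ _ h := T.cap_rg hA hd h
  typ p := T.typ_rg hA hd p

theorem natl_F (q : ℕ) : (T.shift q).Natl (T.F A q) where
  cup p j h := by
    unfold F
    rw [shift_cup, mul_assoc, T.X_cup_right hA hd q h, ← mul_assoc, T.X_cup_left hA hd q h,
      mul_assoc]
  cap p j h := by
    unfold F
    rw [shift_cap, ← mul_assoc, T.cap_X_left hA hd q h, mul_assoc, T.cap_X_right hA hd q h,
      mul_assoc]
  typ p := by
    rw [typ_shift]
    exact (T.typ_X A (by omega)).mul (T.typ_X A (by omega))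

theorem natl_K : T.Natl (T.K A) where
  cup p j h := by
    obtain ⟨k, rfl⟩ := Nat.exists_eq_add_of_le h
    have e1 := (T.typ_cup (j := j) (m := j + k) h).C (j + k + 2)
    have e2 := T.X_cup_left hA hd (j + k + 2) (n := j + k) (j := j) h
    have e3 := (T.shift (j + k + 2)).N_cup_left j k
    rw [shift_cup, shift_cap] at e3
    have e4 : T.cap (j + k + 2 + (j + 2 * k)) * T.X A (j + k) (j + k + 2) =
        T.X A (j + k) (j + k + 2) * T.cap (j + k + 2 + (j + 2 * k)) := by
      have := (T.typ_X A (p := j + k) (q := j + k + 2) (m := 2 * (j + k) + 2) (by omega)).2 k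
      rw [show 2 * (j + k) + 2 + k = j + k + 2 + (j + 2 * k) by omega] at this
      exact this
    have e5 := (T.shift (j + k)).cap_C_right j k
    rw [shift_cup, shift_cap] at e5
    rw [show j + k + (j + 2 * k + 2) = j + k + 2 + (j + 2 * k) by omega] at e5
    have e6 := T.X_cup_right hA hd (j + k) (n := j + k) (j := j) h
    have e7 := (T.typ_cup (j := j) (m := j + k) h).N (j + k)
    calc T.K A (j + k + 2) * T.cup j
        = (T.shift (j + k + 2)).N (j + k + 2) * T.X A (j + k + 2) (j + k + 2) *
          ((T.shift (j + k + 2)).C (j + k + 2) * T.cup j) := by simp only [K, mul_assoc]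
      _ = (T.shift (j + k + 2)).N (j + k + 2) * (T.X A (j + k + 2) (j + k + 2) * T.cup j) *
          (T.shift (j + k)).C (j + k + 2) := by rw [e1]; simp only [mul_assoc]
      _ = ((T.shift (j + k + 2)).N (j + k + 2) * T.cup (j + k + 2 + j)) *
          T.X A (j + k) (j + k + 2) * (T.shift (j + k)).C (j + k + 2) := by
          rw [e2]; simp only [mul_assoc]
      _ = (T.shift (j + k + 2)).N (j + k) * (T.cap (j + k + 2 + (j + 2 * k)) *
          T.X A (j + k) (j + k + 2)) * (T.shift (j + k)).C (j + k + 2) := by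
          rw [e3]; simp only [mul_assoc]
      _ = (T.shift (j + k + 2)).N (j + k) * T.X A (j + k) (j + k + 2) *
          (T.cap (j + k + 2 + (j + 2 * k)) * (T.shift (j + k)).C (j + k + 2)) := by
          rw [e4]; simp only [mul_assoc]
      _ = (T.shift (j + k + 2)).N (j + k) * (T.X A (j + k) (j + k + 2) *
          T.cup (j + k + j)) * (T.shift (j + k)).C (j + k) := by
          rw [e5]; simp only [mul_assoc]
      _ = ((T.shift (j + k + 2)).N (j + k) * T.cup j) * T.X A (j + k) (j + k) *
          (T.shift (j + k)).C (j + k) := by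
          rw [e6]; simp only [mul_assoc]
      _ = T.cup j * T.K A (j + k) := by rw [e7]; simp only [K, mul_assoc]
  cap p j h := by
    obtain ⟨k, rfl⟩ := Nat.exists_eq_add_of_le h
    have e1 := (T.typ_cap (j := j) (m := j + k) h).N (j + k + 2)
    have e2 := T.cap_X_right hA hd (j + k + 2) (n := j + k) (j := j) h
    have e3 := (T.shift (j + k + 2)).cap_C_left j k
    rw [shift_cup, shift_cap] at e3
    have e4 : T.cup (j + k + 2 + (j + 2 * k)) * T.X A (j + k + 2) (j + k) =
        T.X A (j + k + 2) (j + k) * T.cup (j + k + 2 + (j + 2 * k)) := by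
      have := (T.typ_X A (p := j + k + 2) (q := j + k) (m := 2 * (j + k) + 2) (by omega)).1 k
      rw [show 2 * (j + k) + 2 + k = j + k + 2 + (j + 2 * k) by omega] at this
      exact this
    have e5 := (T.shift (j + k)).N_cup_right j k
    rw [shift_cup, shift_cap] at e5
    rw [show j + k + (j + 2 * k + 2) = j + k + 2 + (j + 2 * k) by omega] at e5
    have e6 := T.cap_X_left hA hd (j + k) (n := j + k) (j := j) h
    have e7 := (T.typ_cap (j := j) (m := j + k) h).C (j + k)
    calc T.cap j * T.K A (j + k + 2)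
        = (T.cap j * (T.shift (j + k + 2)).N (j + k + 2)) * T.X A (j + k + 2) (j + k + 2) *
          (T.shift (j + k + 2)).C (j + k + 2) := by simp only [K, mul_assoc]
      _ = (T.shift (j + k)).N (j + k + 2) * (T.cap j * T.X A (j + k + 2) (j + k + 2)) *
          (T.shift (j + k + 2)).C (j + k + 2) := by rw [← e1]; simp only [mul_assoc]
      _ = (T.shift (j + k)).N (j + k + 2) * T.X A (j + k + 2) (j + k) *
          (T.cap (j + k + 2 + j) * (T.shift (j + k + 2)).C (j + k + 2)) := by
          rw [e2]; simp only [mul_assoc]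
      _ = (T.shift (j + k)).N (j + k + 2) * (T.X A (j + k + 2) (j + k) *
          T.cup (j + k + 2 + (j + 2 * k))) * (T.shift (j + k + 2)).C (j + k) := by
          rw [e3]; simp only [mul_assoc]
      _ = ((T.shift (j + k)).N (j + k + 2) * T.cup (j + k + 2 + (j + 2 * k))) *
          T.X A (j + k + 2) (j + k) * (T.shift (j + k + 2)).C (j + k) := by
          rw [← e4]; simp only [mul_assoc]
      _ = (T.shift (j + k)).N (j + k) * (T.cap (j + k + j) * T.X A (j + k + 2) (j + k)) *
          (T.shift (j + k + 2)).C (j + k) := by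
          rw [e5]; simp only [mul_assoc]
      _ = (T.shift (j + k)).N (j + k) * T.X A (j + k) (j + k) *
          (T.cap j * (T.shift (j + k + 2)).C (j + k)) := by
          rw [e6]; simp only [mul_assoc]
      _ = T.K A (j + k) * T.cap j := by rw [← e7]; simp only [K, mul_assoc]
  typ p := T.typ_K A p

theorem K_succ (p : ℕ) :
    T.K A (p + 1) = (-A ^ 3) • (T.Mv A p * (T.shift 1).K A p * T.Lv A p) := by
  have h1 : T.cap (p + 1 + p) * T.X A p (p + 1) = T.X A p (p + 1) * T.cap (p + 1 + p) := by
    have := (T.typ_X A (p := p) (q := p + 1) (m := p + 1 + p) (by omega)).2 0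
    simpa using this
  have h2 : T.cup (p + 1 + p) * (T.shift p).Mv A p = (T.shift p).Mv A p * T.cup (p + 1 + p) := by
    have := (T.shift p).typ_Mv A (q := p) (m := p + 1) (by omega)
    rw [typ_shift] at this
    have h := this.1 0
    rw [show p + (p + 1) + 0 = p + 1 + p by omega] at h
    exact h
  have h3 : T.cap (p + 1 + p) * T.sig A (p + p) * T.cup (p + 1 + p) = (-A ^ 3) • (1 : R) := by
    have := T.cap_sig_cup hA hd (p + p)
    rw [show p + p + 1 = p + 1 + p by omega] at this
    exact this
  have h4 := T.yang_baxter A hA hd p p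
  have h5 := (T.typ_Mv A (q := p) (m := p + 1) (by omega)).N p
  have h6 := (T.typ_Lv A (q := p) (m := p + 1) (by omega)).C p
  have h7 : (T.shift 1).K A p = (T.shift (p + 1)).N p * (T.shift 1).X A p p *
      (T.shift (p + 1)).C p := by
    unfold K; rw [shift_shift, Nat.add_comm 1 p]
  calc T.K A (p + 1)
      = (T.shift (p + 1)).N p * (T.cap (p + 1 + p) * T.X A p (p + 1)) * T.sig A (p + p) *
        ((T.shift p).Mv A p * T.cup (p + 1 + p)) * (T.shift (p + 1)).C p := by
        unfold K
        rw [N_succ, C_succ, X_succ_left, Mv_succ, shift_sig, shift_cap, shift_cup]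
        simp only [mul_assoc]
    _ = (T.shift (p + 1)).N p * T.X A p (p + 1) * (T.cap (p + 1 + p) * T.sig A (p + p) *
        T.cup (p + 1 + p)) * (T.shift p).Mv A p * (T.shift (p + 1)).C p := by
        rw [h1, ← h2]; simp only [mul_assoc]
    _ = (-A ^ 3) • ((T.shift (p + 1)).N p * ((T.shift p).Lv A p * T.X A p p *
        (T.shift p).Mv A p) * (T.shift (p + 1)).C p) := by
        rw [h3, X_succ_right]
        simp only [mul_smul_comm, smul_mul_assoc, mul_one, mul_assoc]
    _ = (-A ^ 3) • (((T.shift (p + 1)).N p * T.Mv A p) * (T.shift 1).X A p p *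
        (T.Lv A p * (T.shift (p + 1)).C p)) := by
        rw [h4]; simp only [mul_assoc]
    _ = _ := by
        rw [h5, ← h6, h7]; simp only [mul_assoc]

end slide

/-- `g` is killed by all Temperley–Lieb generators on the first `n` strands -/
def Kill (n : ℕ) (g : R) : Prop := ∀ j, j + 2 ≤ n → T.U j * g = 0

variable {T}

theorem Kill.sig {n : ℕ} {g : R} (h : T.Kill n g) {j : ℕ} (hj : j + 2 ≤ n) :
    T.sig A j * g = A • g := by
  unfold TLRep.sig
  rw [add_mul, smul_mul_assoc, smul_mul_assoc, one_mul, h j hj, smul_zero, add_zero]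

theorem Kill.smul {n : ℕ} {g : R} (h : T.Kill n g) (a : ℂ) : T.Kill n (a • g) := by
  intro j hj; rw [mul_smul_comm, h j hj, smul_zero]

theorem Kill.Mv {n : ℕ} {g : R} (h : T.Kill n g) {m : ℕ} (hm : m + 1 ≤ n) :
    T.Mv A m * g = A ^ m • g := by
  induction m with
  | zero => simp [Mv_zero]
  | succ m ih =>
    rw [Mv_succ, mul_assoc, ih (by omega), mul_smul_comm, h.sig A (by omega), smul_smul, pow_succ]

theorem Kill.Lv {n : ℕ} {g : R} (h : T.Kill n g) {m : ℕ} (hm : m + 1 ≤ n) :
    T.Lv A m * g = A ^ m • g := by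
  induction m with
  | zero => simp [Lv_zero]
  | succ m ih =>
    rw [Lv_succ, mul_assoc, h.sig A (by omega), mul_smul_comm, ih (by omega), smul_smul, pow_succ']

theorem Kill.shift {n : ℕ} {g : R} (h : T.Kill (n + 1) g) : (T.shift 1).Kill n g := by
  intro j hj
  rw [shift_U]
  exact h (1 + j) (by omega)

theorem Kill.mono {n m : ℕ} {g : R} (h : T.Kill n g) (hm : m ≤ n) : T.Kill m g :=
  fun j hj => h j (by omega)

/-- the eigenvalue of a ring around a strand of colour `n` -/
noncomputable def lam (A : ℂ) (n : ℕ) : ℂ := -A ^ (2 * n + 2) - A⁻¹ ^ (2 * n + 2)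

/-- the twist of colour `n` -/
noncomputable def tw (A : ℂ) (n : ℕ) : ℂ := (-1) ^ n * A ^ (n ^ 2 + 2 * n)

theorem Kill.rg {A : ℂ} (hA : A ≠ 0) (hd : d = -A ^ 2 - (A⁻¹) ^ 2) {n : ℕ} {g : R}
    (h : T.Kill n g) : T.rg A n * g = lam A n • g := by
  induction n with
  | zero => rw [rg_zero, smul_mul_assoc, one_mul, hd]; simp [lam]
  | succ n ih =>
    have h1 : T.J A n * g = (A ^ (2 * n)) • g := by
      unfold TLRep.J
      rw [mul_assoc, h.Lv A (m := n) le_rfl, mul_smul_comm, h.Mv A le_rfl, smul_smul, ← pow_add,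
        two_mul]
    rw [T.rg_succ hA hd, add_mul, smul_mul_assoc, smul_mul_assoc, h1, ih (h.mono (by omega)),
      smul_smul, smul_smul, ← add_smul]
    congr 1
    unfold lam
    have : A⁻¹ ^ 2 * A ^ (2 * n + 2) = A ^ (2 * n) := by
      rw [inv_pow]; field_simp; ring
    have h2 : A⁻¹ ^ 2 * A⁻¹ ^ (2 * n + 2) = A⁻¹ ^ (2 * (n + 1) + 2) := by
      rw [← pow_add]; congr 1; ring
    rw [mul_sub, h2, mul_neg, this]
    ring

theorem Kill.K {A : ℂ} (hA : A ≠ 0) (hd : d = -A ^ 2 - (A⁻¹) ^ 2) {n : ℕ} {g : R}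
    (h : T.Kill n g) : T.K A n * g = tw A n • g := by
  induction n generalizing T g with
  | zero => rw [K_zero, one_mul]; simp [tw]
  | succ n ih =>
    rw [T.K_succ hA hd, smul_mul_assoc, mul_assoc, h.Lv A le_rfl, mul_assoc, mul_smul_comm,
      ih h.shift, smul_smul, mul_smul_comm, h.Mv A le_rfl, smul_smul, smul_smul]
    congr 1
    unfold tw
    ring

end TLRep

end Pool.Agent.Helper24.AEC
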