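import Mathlib

namespace Pool.Agent.Helper24.AEC

/-- Temperley–Lieb data in a complex algebra: elements `cup i`, `cap i` satisfying the
relations of planar isotopy, a closed loop being worth `d`. -/
structure TLRep (R : Type*) [Ring R] [Algebra ℂ R] (d : ℂ) where
  cup : ℕ → R
  cap : ℕ → R
  loop : ∀ i, cap i * cup i = d • (1 : R)
  zig : ∀ i, cap i * cup (i + 1) = 1
  zag : ∀ i, cap (i + 1) * cup i = 1
  cup_cup : ∀ i j, i ≤ j → cup (j + 2) * cup i = cup i * cup j
  cap_cap : ∀ i j, i ≤ j → cap i * cap (j + 2) = cap j * cap i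
  cap_cup : ∀ i j, i ≤ j → cap i * cup (j + 2) = cup j * cap i
  cap_cup' : ∀ i j, i ≤ j → cap (j + 2) * cup i = cup i * cap j

namespace TLRep

variable {R : Type*} [Ring R] [Algebra ℂ R] {d : ℂ} (T : TLRep R d)

/-- the same data, read from the strand `s` on -/
def shift (s : ℕ) : TLRep R d where
  cup i := T.cup (s + i)
  cap i := T.cap (s + i)
  loop _ := T.loop _
  zig _ := T.zig _
  zag _ := T.zag _
  cup_cup i j h := T.cup_cup (s + i) (s + j) (Nat.add_le_add_left h s)
  cap_cap i j h := T.cap_cap (s + i) (s + j) (Nat.add_le_add_left h s)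
  cap_cup i j h := T.cap_cup (s + i) (s + j) (Nat.add_le_add_left h s)
  cap_cup' i j h := T.cap_cup' (s + i) (s + j) (Nat.add_le_add_left h s)

theorem shift_cup (s i : ℕ) : (T.shift s).cup i = T.cup (s + i) := rfl
theorem shift_cap (s i : ℕ) : (T.shift s).cap i = T.cap (s + i) := rfl

@[ext] theorem ext' {T T' : TLRep R d} (h1 : ∀ i, T.cup i = T'.cup i)
    (h2 : ∀ i, T.cap i = T'.cap i) : T = T' := by
  cases T; cases T'
  have e1 := funext h1
  have e2 := funext h2
  simp only at e1 e2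
  subst e1; subst e2
  rfl

@[simp] theorem shift_zero : T.shift 0 = T := by
  apply ext' <;> intro i <;> simp [shift_cup, shift_cap]

theorem shift_shift (s t : ℕ) : (T.shift s).shift t = T.shift (s + t) := by
  apply ext' <;> intro i <;> simp [shift_cup, shift_cap, Nat.add_assoc]

/-- `z` is a combination of diagrams from `m` to `n` strands -/
def Typ (z : R) (m n : ℕ) : Prop :=
  (∀ i, T.cup (n + i) * z = z * T.cup (m + i)) ∧ (∀ i, T.cap (n + i) * z = z * T.cap (m + i))

variable {T}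

theorem Typ.mul {z w : R} {m n l : ℕ} (hz : T.Typ z n l) (hw : T.Typ w m n) :
    T.Typ (z * w) m l := by
  constructor
  · intro i
    rw [← mul_assoc, hz.1, mul_assoc, hw.1, ← mul_assoc]
  · intro i
    rw [← mul_assoc, hz.2, mul_assoc, hw.2, ← mul_assoc]

theorem Typ.one (m : ℕ) : T.Typ 1 m m := by
  constructor <;> intro i <;> simp

theorem Typ.add {z w : R} {m n : ℕ} (hz : T.Typ z m n) (hw : T.Typ w m n) :
    T.Typ (z + w) m n := by
  constructor <;> intro i
  · rw [mul_add, add_mul, hz.1, hw.1]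
  · rw [mul_add, add_mul, hz.2, hw.2]

theorem Typ.sub {z w : R} {m n : ℕ} (hz : T.Typ z m n) (hw : T.Typ w m n) :
    T.Typ (z - w) m n := by
  constructor <;> intro i
  · rw [mul_sub, sub_mul, hz.1, hw.1]
  · rw [mul_sub, sub_mul, hz.2, hw.2]

theorem Typ.smul {z : R} {m n : ℕ} (hz : T.Typ z m n) (a : ℂ) :
    T.Typ (a • z) m n := by
  constructor <;> intro i
  · rw [mul_smul_comm, smul_mul_assoc, hz.1]
  · rw [mul_smul_comm, smul_mul_assoc, hz.2]

theorem Typ.pow {z : R} {m : ℕ} (hz : T.Typ z m m) (n : ℕ) : T.Typ (z ^ n) m m := by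
  induction n with
  | zero => simpa using Typ.one m
  | succ n ih => rw [pow_succ]; exact ih.mul hz

theorem Typ.mono {z : R} {m n : ℕ} (hz : T.Typ z m n) (l : ℕ) : T.Typ z (m + l) (n + l) := by
  constructor <;> intro i
  · have := hz.1 (l + i); simpa [Nat.add_assoc] using this
  · have := hz.2 (l + i); simpa [Nat.add_assoc] using this

theorem Typ.mono' {z : R} {m : ℕ} (hz : T.Typ z m m) {l : ℕ} (h : m ≤ l) : T.Typ z l l := by
  obtain ⟨k, rfl⟩ := Nat.exists_eq_add_of_le h
  exact hz.mono k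

theorem Typ.cast {z : R} {m n m' n' : ℕ} (hz : T.Typ z m n) (h : m = m') (h' : n = n') :
    T.Typ z m' n' := by subst h; subst h'; exact hz

theorem typ_shift {z : R} {m n s : ℕ} : (T.shift s).Typ z m n ↔ T.Typ z (s + m) (s + n) := by
  unfold Typ
  simp only [shift_cup, shift_cap, Nat.add_assoc]

variable (T)

theorem typ_cup {j m : ℕ} (h : j ≤ m) : T.Typ (T.cup j) m (m + 2) := by
  constructor <;> intro i
  · have := T.cup_cup j (m + i) (by omega)
    rw [← this]; congr 2; omega
  · have := T.cap_cup' j (m + i) (by omega)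
    rw [← this]; congr 2; omega

theorem typ_cap {j m : ℕ} (h : j ≤ m) : T.Typ (T.cap j) (m + 2) m := by
  constructor <;> intro i
  · have := T.cap_cup j (m + i) (by omega)
    rw [← this]; congr 2; omega
  · have := T.cap_cap j (m + i) (by omega)
    rw [← this]; congr 2; omega

/-- the Temperley–Lieb generator -/
def U (i : ℕ) : R := T.cup i * T.cap i

theorem typ_U {j m : ℕ} (h : j + 2 ≤ m) : T.Typ (T.U j) m m := by
  obtain ⟨k, rfl⟩ := Nat.exists_eq_add_of_le h
  have h1 := T.typ_cap (j := j) (m := j + k) (by omega)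
  have h2 := T.typ_cup (j := j) (m := j + k) (by omega)
  have := h2.mul h1
  exact this.cast (by omega) (by omega)

variable {T}

theorem Typ.U {z : R} {m n : ℕ} (hz : T.Typ z m n) (i : ℕ) :
    T.U (n + i) * z = z * T.U (m + i) := by
  unfold TLRep.U
  rw [mul_assoc, hz.2, ← mul_assoc, hz.1, mul_assoc]

variable (T)

/-- the crossing -/
noncomputable def sig (A : ℂ) (i : ℕ) : R := A • (1 : R) + A⁻¹ • T.U i

theorem shift_U (s i : ℕ) : (T.shift s).U i = T.U (s + i) := rfl
theorem shift_sig (A : ℂ) (s i : ℕ) : (T.shift s).sig A i = T.sig A (s + i) := rfl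

theorem typ_sig (A : ℂ) {j m : ℕ} (h : j + 2 ≤ m) : T.Typ (T.sig A j) m m :=
  ((Typ.one m).smul A).add ((T.typ_U h).smul _)

variable {T}

theorem Typ.sig {z : R} {m n : ℕ} (hz : T.Typ z m n) (A : ℂ) (i : ℕ) :
    T.sig A (n + i) * z = z * T.sig A (m + i) := by
  unfold TLRep.sig
  rw [add_mul, mul_add, smul_mul_assoc, smul_mul_assoc, mul_smul_comm, mul_smul_comm, hz.U,
    one_mul, mul_one]

variable (T)

theorem U_mul_U (i : ℕ) : T.U i * T.U i = d • T.U i := by
  unfold U
  rw [mul_assoc, ← mul_assoc (T.cap i) (T.cup i), T.loop, smul_mul_assoc, one_mul, mul_smul_comm]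

theorem cap_U (i : ℕ) : T.cap i * T.U i = d • T.cap i := by
  unfold U
  rw [← mul_assoc, T.loop, smul_mul_assoc, one_mul]

theorem U_cup (i : ℕ) : T.U i * T.cup i = d • T.cup i := by
  unfold U
  rw [mul_assoc, T.loop, mul_smul_comm, mul_one]

theorem U_succ_cup (i : ℕ) : T.U (i + 1) * T.cup i = T.cup (i + 1) := by
  unfold U; rw [mul_assoc, T.zag, mul_one]

theorem U_cup_succ (i : ℕ) : T.U i * T.cup (i + 1) = T.cup i := by
  unfold U; rw [mul_assoc, T.zig, mul_one]

theorem cap_U_succ (i : ℕ) : T.cap i * T.U (i + 1) = T.cap (i + 1) := by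
  unfold U; rw [← mul_assoc, T.zig, one_mul]

theorem cap_succ_U (i : ℕ) : T.cap (i + 1) * T.U i = T.cap i := by
  unfold U; rw [← mul_assoc, T.zag, one_mul]

theorem U_U_succ_U (i : ℕ) : T.U i * T.U (i + 1) * T.U i = T.U i := by
  have h : T.U i * T.U (i + 1) = T.cup i * T.cap (i + 1) := by
    show T.cup i * T.cap i * T.U (i + 1) = _
    rw [mul_assoc, T.cap_U_succ]
  rw [h, mul_assoc, T.cap_succ_U]; rfl

theorem U_succ_U_U_succ (i : ℕ) : T.U (i + 1) * T.U i * T.U (i + 1) = T.U (i + 1) := by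
  have h : T.U (i + 1) * T.U i = T.cup (i + 1) * T.cap i := by
    show T.cup (i + 1) * T.cap (i + 1) * T.U i = _
    rw [mul_assoc, T.cap_succ_U]
  rw [h, mul_assoc, T.cap_U_succ]; rfl

section braid

variable {A : ℂ} (hA : A ≠ 0) (hd : d = -A ^ 2 - (A⁻¹) ^ 2)
include hA hd

theorem sig_mul_cup_self (i : ℕ) : T.sig A i * T.cup i = (-(A⁻¹) ^ 3) • T.cup i := by
  unfold sig
  rw [add_mul, smul_mul_assoc, smul_mul_assoc, one_mul, T.U_cup, smul_smul, ← add_smul]
  congr 1; subst hd; field_simp; ring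

theorem sig_sig_cup (i : ℕ) : T.sig A i * (T.sig A (i + 1) * T.cup i) = T.cup (i + 1) := by
  unfold sig
  simp only [add_mul, smul_mul_assoc, one_mul, T.U_succ_cup, mul_add, mul_smul_comm, T.U_cup,
    T.U_cup_succ, smul_add]
  subst hd
  match_scalars <;> field_simp
  ring

theorem sig_sig_cup' (i : ℕ) : T.sig A (i + 1) * (T.sig A i * T.cup (i + 1)) = T.cup i := by
  unfold sig
  simp only [add_mul, smul_mul_assoc, one_mul, T.U_succ_cup, mul_add, mul_smul_comm, T.U_cup,
    T.U_cup_succ, smul_add]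
  subst hd
  match_scalars <;> field_simp
  ring

theorem cap_sig_sig (i : ℕ) : T.cap i * T.sig A (i + 1) * T.sig A i = T.cap (i + 1) := by
  unfold sig
  simp only [add_mul, smul_mul_assoc, one_mul, mul_one, T.cap_U, T.cap_U_succ, T.cap_succ_U,
    mul_add, mul_smul_comm, smul_add]
  subst hd
  match_scalars <;> field_simp
  ring

theorem cap_sig_sig' (i : ℕ) : T.cap (i + 1) * T.sig A i * T.sig A (i + 1) = T.cap i := by
  unfold sig
  simp only [add_mul, smul_mul_assoc, one_mul, mul_one, T.cap_U, T.cap_U_succ, T.cap_succ_U,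
    mul_add, mul_smul_comm, smul_add]
  subst hd
  match_scalars <;> field_simp
  ring

theorem cap_sig_cup (i : ℕ) : T.cap (i + 1) * T.sig A i * T.cup (i + 1) = (-A ^ 3) • (1 : R) := by
  unfold sig
  simp only [add_mul, smul_mul_assoc, mul_one, T.cap_succ_U, T.loop, T.zig,
    mul_add, mul_smul_comm]
  subst hd
  match_scalars
  field_simp
  ring

theorem braid (i : ℕ) : T.sig A i * T.sig A (i + 1) * T.sig A i
    = T.sig A (i + 1) * T.sig A i * T.sig A (i + 1) := by
  unfold sig
  have h1 : T.U i * T.U i = d • T.U i := T.U_mul_U i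
  have h2 : T.U (i + 1) * T.U (i + 1) = d • T.U (i + 1) := T.U_mul_U _
  have h3 : T.U i * (T.U (i + 1) * T.U i) = T.U i := by rw [← mul_assoc, T.U_U_succ_U]
  have h4 : T.U (i + 1) * (T.U i * T.U (i + 1)) = T.U (i + 1) := by
    rw [← mul_assoc, T.U_succ_U_U_succ]
  simp only [add_mul, mul_add, smul_mul_assoc, one_mul, mul_one, mul_smul_comm, mul_assoc, h1, h2,
    h3, h4, smul_add]
  subst hd
  match_scalars <;> field_simp <;> ring

end braid

theorem sig_sig_comm (A : ℂ) {i j : ℕ} (h : i + 2 ≤ j) :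
    T.sig A i * T.sig A j = T.sig A j * T.sig A i := by
  obtain ⟨k, rfl⟩ := Nat.exists_eq_add_of_le h
  exact ((T.typ_sig A (j := i) (m := i + 2) le_rfl).sig A k).symm

end TLRep

end Pool.Agent.Helper24.AEC
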